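import Pool.Agent.P.MP_2f6447_an.Fourier2

/-! Compactly supported `C^1` functions approximating the first sine mode. -/

open MeasureTheory Set Real Filter Topology

namespace Pool.Agent.P.MP_2f6447_an

/-- One arch of the sine, extended by zero. -/
noncomputable def arch (s t : ℝ) : ℝ := Real.sin (π * (max 0 (min t s)) / s)

lemma continuous_arch (s : ℝ) : Continuous (arch s) := by unfold arch; fun_prop

lemma arch_in {s t : ℝ} (ht : t ∈ Icc 0 s) : arch s t = Real.sin (π * t / s) := by
  unfold arch; rw [min_eq_left ht.2, max_eq_right ht.1]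

lemma arch_out {s t : ℝ} (hs : 0 < s) (ht : t ∉ Ioo 0 s) : arch s t = 0 := by
  unfold arch
  by_cases h0 : t ≤ 0
  · rw [min_eq_left (by linarith), max_eq_left h0]; simp
  · have h1 : s ≤ t := by
      by_contra h1; exact ht ⟨not_le.1 h0, not_le.1 h1⟩
    rw [min_eq_right h1, max_eq_right hs.le, mul_div_assoc, div_self hs.ne', mul_one, Real.sin_pi]

lemma arch_nonneg {s : ℝ} (hs : 0 < s) (t : ℝ) : 0 ≤ arch s t := by
  unfold arch
  apply Real.sin_nonneg_of_nonneg_of_le_pi
  · positivity
  · rw [div_le_iff₀ hs]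
    exact mul_le_mul_of_nonneg_left (max_le hs.le (min_le_right _ _)) Real.pi_pos.le

lemma arch_lip {s : ℝ} (hs : 0 < s) (t t0 : ℝ) : |arch s t - arch s t0| ≤ π / s * |t - t0| := by
  unfold arch
  refine (Real.abs_sin_sub_sin_le _ _).trans ?_
  have : π * max 0 (min t s) / s - π * max 0 (min t0 s) / s =
      π / s * (max 0 (min t s) - max 0 (min t0 s)) := by ring
  rw [this, abs_mul, abs_of_pos (by have := Real.pi_pos; positivity : 0 < π / s)]
  apply mul_le_mul_of_nonneg_left _ (by have := Real.pi_pos; positivity)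
  rw [max_comm 0, max_comm 0]
  refine (abs_max_sub_max_le_abs _ _ _).trans ?_
  rw [abs_le]
  constructor
  · rcases le_total t s with h | h <;> rcases le_total t0 s with h' | h' <;>
      simp only [min_eq_left, min_eq_right, h, h'] <;>
      linarith [le_abs_self (t - t0), neg_abs_le (t - t0), abs_nonneg (t - t0)]
  · rcases le_total t s with h | h <;> rcases le_total t0 s with h' | h' <;>
      simp only [min_eq_left, min_eq_right, h, h'] <;>
      linarith [le_abs_self (t - t0), neg_abs_le (t - t0), abs_nonneg (t - t0)]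

lemma hasDerivAt_arch_sq {s : ℝ} (hs : 0 < s) (t : ℝ) :
    HasDerivAt (fun t => arch s t ^ 2) (2 * arch s t * (π / s * Real.cos (π * t / s))) t := by
  by_cases ht : t ∈ Ioo 0 s
  · have h1 : HasDerivAt (fun t : ℝ => π * t / s) (π / s) t := by
      have := ((hasDerivAt_id' t).const_mul π).div_const s
      rw [mul_one] at this; exact this
    have h2 := h1.sin.pow 2
    have e : (fun t => arch s t ^ 2) =ᶠ[𝓝 t] (fun t => Real.sin (π * t / s)) ^ 2 := by
      filter_upwards [Ioo_mem_nhds ht.1 ht.2] with x hx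
      rw [arch_in (Ioo_subset_Icc_self hx)]; rfl
    refine (h2.congr_of_eventuallyEq e).congr_deriv ?_
    rw [arch_in (Ioo_subset_Icc_self ht)]
    simp only [Nat.cast_ofNat, Nat.add_one_sub_one, pow_one]; ring
  · have h0 := arch_out hs ht
    rw [h0, mul_zero, zero_mul, hasDerivAt_iff_isLittleO]
    simp only [h0, smul_zero, sub_zero, ne_eq, OfNat.ofNat_ne_zero, not_false_eq_true, zero_pow]
    have hO : (fun x => arch s x) =O[𝓝 t] fun x => x - t := by
      apply Asymptotics.IsBigO.of_bound (π / s)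
      filter_upwards with x
      have := arch_lip hs x t
      rw [h0, sub_zero] at this
      exact this
    have ho : (fun x => arch s x) =o[𝓝 t] fun _ => (1 : ℝ) := by
      rw [Asymptotics.isLittleO_one_iff]
      have := (continuous_arch s).tendsto t
      rwa [h0] at this
    have := hO.mul_isLittleO ho
    simpa [sq] using this

theorem exists_bump {s η : ℝ} (hs : 0 < s) (hη : 0 < η) :
    ∃ ψ ψ' : ℝ → ℝ, ContDiff ℝ 1 ψ ∧ (∀ t, HasDerivAt ψ (ψ' t) t) ∧ Continuous ψ' ∧
      (∀ t, t ∉ Ioo 0 s → ψ t = 0) ∧ (∀ t, t ∉ Ioo 0 s → ψ' t = 0) ∧ ψ (s / 2) ≠ 0 ∧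
      ∫ t, ψ' t ^ 2 ≤ (π / s) ^ 2 * (1 + η) * ∫ t, ψ t ^ 2 := by
  set ε := η / (4 * (1 + η)) with hε
  have hε0 : 0 < ε := by positivity
  have ca := continuous_arch s
  have pos : ∀ t, 0 < arch s t ^ 2 + ε ^ 2 := fun t => by positivity
  set ψ : ℝ → ℝ := fun t => √(arch s t ^ 2 + ε ^ 2) - ε with hψ
  set ψ' : ℝ → ℝ := fun t =>
    2 * arch s t * (π / s * Real.cos (π * t / s)) / (2 * √(arch s t ^ 2 + ε ^ 2)) with hψ'
  have hd : ∀ t, HasDerivAt ψ (ψ' t) t := fun t =>
    (((hasDerivAt_arch_sq hs t).add_const (ε ^ 2)).sqrt (pos t).ne').sub_const ε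
  have cψ' : Continuous ψ' := by
    apply Continuous.div (by fun_prop) (by fun_prop)
    intro t
    have := Real.sqrt_pos.2 (pos t)
    positivity
  have cψ : Continuous ψ := by simp only [hψ]; fun_prop
  have z0 : ∀ t, t ∉ Ioo 0 s → ψ t = 0 := fun t ht => by
    simp [hψ, arch_out hs ht, Real.sqrt_sq hε0.le]
  have z1 : ∀ t, t ∉ Ioo 0 s → ψ' t = 0 := fun t ht => by simp [hψ', arch_out hs ht]
  refine ⟨ψ, ψ', ?_, hd, cψ', z0, z1, ?_, ?_⟩
  · rw [contDiff_one_iff_deriv]
    refine ⟨fun t => (hd t).differentiableAt, ?_⟩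
    have : deriv ψ = ψ' := funext fun t => (hd t).deriv
    rw [this]; exact cψ'
  · have : arch s (s / 2) = 1 := by
      rw [arch_in ⟨by linarith, by linarith⟩]
      have : π * (s / 2) / s = π / 2 := by field_simp
      rw [this, Real.sin_pi_div_two]
    simp only [hψ, this]
    have : ε < √(1 ^ 2 + ε ^ 2) := Real.lt_sqrt_of_sq_lt (by linarith)
    linarith
  · have sm := integral_sin_sq_mode hs (k := 1) one_ne_zero
    simp only [Int.cast_one, mul_one] at sm
    have cs : Continuous fun t => Real.sin (π * t / s) ^ 2 := by fun_prop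
    rw [← integral_eq_interval (g := fun t => ψ t ^ 2) (a := 0) (b := s)
        (fun t ht => by simp [z0 t ht]),
      ← integral_eq_interval (g := fun t => ψ' t ^ 2) (a := 0) (b := s)
        (fun t ht => by simp [z1 t ht])]
    have h1 : ∫ t in (0 : ℝ)..s, ψ' t ^ 2 ≤
        ∫ t in (0 : ℝ)..s, (π / s) ^ 2 * (1 - Real.sin (π * t / s) ^ 2) := by
      apply intervalIntegral.integral_mono_on hs.le
        (Continuous.intervalIntegrable (by fun_prop) _ _)
        (Continuous.intervalIntegrable (by fun_prop) _ _)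
      intro t _
      simp only [hψ']
      rw [div_pow, div_le_iff₀ (by have := Real.sqrt_pos.2 (pos t); positivity), mul_pow 2 (√_),
        Real.sq_sqrt (pos t).le, ← Real.cos_sq']
      have : 0 ≤ (π / s) ^ 2 * Real.cos (π * t / s) ^ 2 * ε ^ 2 := by positivity
      nlinarith
    have h2 : ∫ t in (0 : ℝ)..s, (Real.sin (π * t / s) ^ 2 - 2 * ε) ≤ ∫ t in (0 : ℝ)..s, ψ t ^ 2 := by
      apply intervalIntegral.integral_mono_on hs.le
        (Continuous.intervalIntegrable (by fun_prop) _ _)
        (Continuous.intervalIntegrable (by fun_prop) _ _)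
      intro t ht
      simp only [hψ]
      have a0 := arch_nonneg hs t
      have a1 : arch s t ≤ 1 := Real.sin_le_one _
      rw [← arch_in ht]
      have h3 : √(arch s t ^ 2 + ε ^ 2) ≤ arch s t + ε := by
        apply Real.sqrt_le_iff.2 ⟨by positivity, by nlinarith⟩
      have h4 := Real.sq_sqrt (pos t).le
      nlinarith
    rw [intervalIntegral.integral_const_mul, intervalIntegral.integral_sub
      intervalIntegrable_const (cs.intervalIntegrable _ _), sm] at h1
    rw [intervalIntegral.integral_sub (cs.intervalIntegrable _ _) intervalIntegrable_const,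
      sm] at h2
    simp only [intervalIntegral.integral_const, sub_zero, smul_eq_mul, mul_one] at h1 h2
    have e : (1 + η) * (s / 2 - s * (2 * ε)) = s - s / 2 := by
      simp only [hε]; field_simp; ring
    calc _ ≤ _ := h1
      _ = (π / s) ^ 2 * (1 + η) * (s / 2 - s * (2 * ε)) := by rw [mul_assoc, e]
      _ ≤ _ := by gcongr

end Pool.Agent.P.MP_2f6447_an
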