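import Pool.Agent.P.MP_2f6447_an.Seq

/-! The energy inequality on the cylinder, in the class odd under a point reflection. -/

open MeasureTheory Set Complex Real

namespace Pool.Agent.P.MP_2f6447_an

/-- The data of an admissible function on the cylinder. -/
structure Adm (m h c : ℝ) (a : ℝ → ℝ) (W Wx Wy : ℝ × ℝ → ℝ) : Prop where
  s0 : Sl m h a W
  sx : Sl m h a Wx
  sy : Sl m h a Wy
  dx : ∀ x y, HasDerivAt (fun t => W (t, y)) (Wx (x, y)) x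
  dy : ∀ x y, HasDerivAt (fun t => W (x, t)) (Wy (x, y)) y
  odd : ∀ p, W ((2 * c, h) - p) = -W p
  orth : ∫ p, W p * (Real.sin (π * (p.1 - c) / m) * Real.sin (π * p.2 / h)) = 0

lemma ch_refl (P c : ℝ) (j : ℤ) (x : ℝ) : ch P c j (2 * c - x) = ch P c (-j) x := by
  unfold ch; congr 1; push_cast; ring

lemma ch_sub (m c : ℝ) (k : ℤ) (x : ℝ) :
    ch (2 * m) c (-k) x - ch (2 * m) c k x = 2 * I * (Real.sin (π * k * (x - c) / m) : ℝ) := by
  have e : ∀ j : ℤ, ch (2 * m) c j x = ch (2 * m) 0 j (x - c) := by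
    intro j; unfold ch; congr 1; push_cast; ring
  rw [e, e, ch_eq, ch_eq]
  have : π * ((-k : ℤ) : ℝ) * (x - c) / m = -(π * k * (x - c) / m) := by push_cast; ring
  rw [this, Real.cos_neg, Real.sin_neg]
  push_cast; ring

namespace Adm

variable {m h c : ℝ} {a : ℝ → ℝ} {W Wx Wy : ℝ × ℝ → ℝ}

lemma sc_odd (H : Adm m h c a W Wx Wy) (hh : 0 < h) (j : ℤ) :
    sc h (xc m c W (-j)) 1 = -sc h (xc m c W j) 1 := by
  have cs : Continuous fun y : ℝ => ((Real.sin (π * (1 : ℤ) * y / h) : ℝ) : ℂ) := by fun_prop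
  unfold sc
  rw [H.s0.coef_eq c j cs, H.s0.coef_eq c (-j) cs, ← integral_neg,
    ← integral_sub_left_eq_self (fun p : ℝ × ℝ => (W p : ℂ) * (ch (2 * m) c (-j) p.1 *
      ((Real.sin (π * (1 : ℤ) * p.2 / h) : ℝ) : ℂ))) volume (2 * c, h)]
  congr 1; ext p
  rw [H.odd]
  simp only [Prod.fst_sub, Prod.snd_sub]
  rw [ch_refl, neg_neg]
  have : π * ((1 : ℤ) : ℝ) * (h - p.2) / h = π - π * ((1 : ℤ) : ℝ) * p.2 / h := by
    push_cast; field_simp
  rw [this, Real.sin_pi_sub]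
  push_cast; ring

lemma sc_01 (H : Adm m h c a W Wx Wy) (hh : 0 < h) : sc h (xc m c W 0) 1 = 0 := by
  have := H.sc_odd hh 0
  rw [neg_zero] at this
  linear_combination this / 2

lemma sc_11 (H : Adm m h c a W Wx Wy) (hh : 0 < h) : sc h (xc m c W 1) 1 = 0 := by
  have h1 := H.sc_odd hh 1
  have cs : Continuous fun y : ℝ => ((Real.sin (π * (1 : ℤ) * y / h) : ℝ) : ℂ) := by fun_prop
  have h2 : sc h (xc m c W (-1)) 1 - sc h (xc m c W 1) 1 = 0 := by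
    unfold sc
    have c1 := continuous_ch (2 * m) c 1
    have c2 := continuous_ch (2 * m) c (-1)
    rw [H.s0.coef_eq c 1 cs, H.s0.coef_eq c (-1) cs, ← integral_sub
      (H.s0.integrable_test (by fun_prop)) (H.s0.integrable_test (by fun_prop))]
    have : ∀ p : ℝ × ℝ, (W p : ℂ) * (ch (2 * m) c (-1) p.1 *
        ((Real.sin (π * (1 : ℤ) * p.2 / h) : ℝ) : ℂ)) - (W p : ℂ) * (ch (2 * m) c 1 p.1 *
        ((Real.sin (π * (1 : ℤ) * p.2 / h) : ℝ) : ℂ)) = 2 * I *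
        ((W p * (Real.sin (π * (p.1 - c) / m) * Real.sin (π * p.2 / h)) : ℝ) : ℂ) := by
      intro p
      have := ch_sub m c 1 p.1
      simp only [Int.cast_one, mul_one] at this ⊢
      rw [← mul_sub, ← sub_mul, this]
      push_cast; ring
    simp_rw [this]
    rw [integral_const_mul, integral_complex_ofReal, H.orth]
    simp
  linear_combination (h1 - h2) / 2

lemma bounds (H : Adm m h c a W Wx Wy) (hh : 0 < h) (hm : h ≤ m) :
    let t := h * (2 * m) * ((∫ p, Wx p ^ 2) + (∫ p, Wy p ^ 2) - 4 * π ^ 2 / (m * h) * ∫ p, W p ^ 2)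
    let α := ‖sc h (xc m c W 0) 2‖ ^ 2
    let β := ‖sc h (xc m c W 2) 1‖ ^ 2
    let r := fun j => h * ∫ y, ‖xc m c W j y‖ ^ 2
    let γ := (π / m) ^ 2 / 2
    0 ≤ t ∧ γ * (h * (2 * m * ∫ p, W p ^ 2) - 2 * α - 4 * β) ≤ t ∧
    γ * ((m / π) ^ 2 * (h * (2 * m * ∫ p, Wx p ^ 2)) - 4 * r 2 - 4 * r (-2)) ≤ t ∧
    γ * (r 0 - 2 * α) ≤ t ∧ γ * (r 2 - 2 * β) ≤ t ∧ γ * (r (-2) - 2 * β) ≤ t ∧
    (4 * (π / h) ^ 2 - 4 * π ^ 2 / (m * h)) * α ≤ t ∧
    (4 * (π / m) ^ 2 + (π / h) ^ 2 - 4 * π ^ 2 / (m * h)) * β ≤ t := by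
  intro t α β r γ
  have hm0 : 0 < m := by linarith
  have hp := Real.pi_pos
  have hX : HasSum (fun p : ℤ × ℤ => (p.1 : ℝ) ^ 2 * ‖sc h (xc m c W p.1) p.2‖ ^ 2)
      ((m / π) ^ 2 * (h * (2 * m * ∫ p, Wx p ^ 2))) :=
    hasSum_of_eq ((H.sx.hasSum_sc2 hm0 hh c).mul_left ((m / π) ^ 2)) fun p => by
      rw [sc_dx H.s0 H.sx H.dx]; field_simp
  have hY : HasSum (fun p : ℤ × ℤ => (p.2 : ℝ) ^ 2 * ‖sc h (xc m c W p.1) p.2‖ ^ 2)
      ((h / π) ^ 2 * (h * (2 * m * ∫ p, Wy p ^ 2))) :=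
    hasSum_of_eq ((H.sy.hasSum_cc2 hm0 hh c).mul_left ((h / π) ^ 2)) fun p => by
      rw [cc_dy H.s0 H.sy H.dy]; field_simp
  have key := seq_bounds (u := (π / m) ^ 2) (v := (π / h) ^ 2) (L := 4 * π ^ 2 / (m * h))
    (by positivity) (by gcongr)
    (by
      have : 4 * (π / h) ^ 2 = 4 * π ^ 2 / (h * h) := by field_simp
      rw [this]; gcongr)
    (by
      have : 4 * (π / m) ^ 2 + (π / h) ^ 2 - 4 * π ^ 2 / (m * h) = π ^ 2 * (2 / m - 1 / h) ^ 2 := by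
        field_simp; ring
      have h2 : 0 ≤ π ^ 2 * (2 / m - 1 / h) ^ 2 := by positivity
      linarith)
    (A := fun p : ℤ × ℤ => ‖sc h (xc m c W p.1) p.2‖ ^ 2) (fun p => by positivity)
    (fun j => by simp [sc_zero]) (fun j n => by simp [sc_neg]) (by simp [H.sc_01 hh])
    (by simp [H.sc_11 hh]) (by simp [H.sc_odd hh 1, H.sc_11 hh]) (by simp [H.sc_odd hh 2])
    (H.s0.hasSum_sc2 hm0 hh c) hX hY (r := r) (fun j => H.s0.hasSum_row_sc hh c j)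
  have e : (π / m) ^ 2 * ((m / π) ^ 2 * (h * (2 * m * ∫ p, Wx p ^ 2))) +
      (π / h) ^ 2 * ((h / π) ^ 2 * (h * (2 * m * ∫ p, Wy p ^ 2))) -
      4 * π ^ 2 / (m * h) * (h * (2 * m * ∫ p, W p ^ 2)) = t := by
    simp only [t]; field_simp
  rw [e] at key
  exact key

lemma energy (H : Adm m h c a W Wx Wy) (hh : 0 < h) (hm : h ≤ m) :
    4 * π ^ 2 / (m * h) * ∫ p, W p ^ 2 ≤ (∫ p, Wx p ^ 2) + ∫ p, Wy p ^ 2 := by
  have := (H.bounds hh hm).1
  have hm0 : 0 < m := by linarith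
  have h2 : 0 < h * (2 * m) := by positivity
  have := (mul_nonneg_iff_of_pos_left h2).1 this
  linarith

/-- The trace estimate along a curve of zeros. -/
lemma trace (H : Adm m h c a W Wx Wy) (hh : 0 < h) (hm0 : 0 < m) {x0 : ℝ → ℝ}
    (hx0 : Continuous x0)
    (hz : ∀ y ∈ Ioo 0 h, x0 y ∈ Icc (a y) (a y + 2 * m) ∧ W (x0 y, y) = 0) :
    ∫ y in (0 : ℝ)..h, ‖sc h (xc m c W 0) 2 * (Real.sin (π * (2 : ℤ) * y / h) : ℝ) +
        sc h (xc m c W 2) 1 * (Real.sin (π * (1 : ℤ) * y / h) : ℝ) *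
          (2 * I * (Real.sin (π * (2 : ℤ) * (x0 y - c) / m) : ℝ))‖ ^ 2 ≤
      h * (K1 * ((m / π) ^ 2 * (h * (2 * m * ∫ p, Wx p ^ 2)) - 4 * (h * ∫ y, ‖xc m c W 2 y‖ ^ 2)
          - 4 * (h * ∫ y, ‖xc m c W (-2) y‖ ^ 2))
        + ((h * ∫ y, ‖xc m c W 0 y‖ ^ 2) - 2 * ‖sc h (xc m c W 0) 2‖ ^ 2)
        + ((h * ∫ y, ‖xc m c W 2 y‖ ^ 2) - 2 * ‖sc h (xc m c W 2) 1‖ ^ 2)
        + ((h * ∫ y, ‖xc m c W (-2) y‖ ^ 2) - 2 * ‖sc h (xc m c W 2) 1‖ ^ 2)) := by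
  have hp := Real.pi_pos
  have c0 := H.s0.xc_cont c 0
  have c2 := H.s0.xc_cont c 2
  have c3 := H.s0.xc_cont c (-2)
  have r0 := remainder_sc hh c0 (H.s0.xc_zero c 0) (k := 2) (by norm_num)
  have r2 := remainder_sc hh c2 (H.s0.xc_zero c 2) (k := 1) (by norm_num)
  have r3 := remainder_sc hh c3 (H.s0.xc_zero c (-2)) (k := 1) (by norm_num)
  have o2 := H.sc_odd hh 2
  rw [o2] at r3
  set C0 := sc h (xc m c W 0) 2 with hC0
  set C2 := sc h (xc m c W 2) 1 with hC2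
  set G : ℝ → ℝ := fun y => K1 * ((m / π) ^ 2 * (2 * m * ∫ x, Wx (x, y) ^ 2)
    - 4 * ‖xc m c W 2 y‖ ^ 2 - 4 * ‖xc m c W (-2) y‖ ^ 2) with hG
  have i1 := H.sx.slice_integrable
  have i2 := H.s0.xc_sq_integrable c 2
  have i3 := H.s0.xc_sq_integrable c (-2)
  have iG : Integrable G :=
    ((((i1.const_mul (2 * m)).const_mul ((m / π) ^ 2)).sub (i2.const_mul 4)).sub
      (i3.const_mul 4)).const_mul K1
  have eG : ∫ y in (0 : ℝ)..h, G y = K1 * ((m / π) ^ 2 * (2 * m * ∫ p, Wx p ^ 2)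
      - 4 * (∫ y, ‖xc m c W 2 y‖ ^ 2) - 4 * ∫ y, ‖xc m c W (-2) y‖ ^ 2) := by
    rw [integral_eq_interval]
    · simp only [hG]
      rw [integral_const_mul, integral_sub, integral_sub, integral_const_mul, integral_const_mul,
        integral_const_mul, integral_const_mul, H.sx.integral_slice]
      · exact (i1.const_mul (2 * m)).const_mul ((m / π) ^ 2)
      · exact i2.const_mul 4
      · exact ((i1.const_mul (2 * m)).const_mul ((m / π) ^ 2)).sub (i2.const_mul 4)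
      · exact i3.const_mul 4
    · intro y hy
      have : ∀ x, Wx (x, y) = 0 := fun x => by
        by_contra h'; exact hy (H.sx.supp x y h').1
      simp [hG, H.s0.xc_zero c 2 y hy, H.s0.xc_zero c (-2) y hy, this]
  set R0 : ℝ → ℝ := fun y =>
    ‖xc m c W 0 y - 2 / h * C0 * (Real.sin (π * (2 : ℤ) * y / h) : ℝ)‖ ^ 2 with hR0
  set R2 : ℝ → ℝ := fun y =>
    ‖xc m c W 2 y - 2 / h * C2 * (Real.sin (π * (1 : ℤ) * y / h) : ℝ)‖ ^ 2 with hR2
  set R3 : ℝ → ℝ := fun y =>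
    ‖xc m c W (-2) y - 2 / h * -C2 * (Real.sin (π * (1 : ℤ) * y / h) : ℝ)‖ ^ 2 with hR3
  have cR0 : Continuous R0 := by simp only [hR0]; fun_prop
  have cR2 : Continuous R2 := by simp only [hR2]; fun_prop
  have cR3 : Continuous R3 := by simp only [hR3]; fun_prop
  have j0 := cR0.intervalIntegrable (μ := volume) 0 h
  have j2 := cR2.intervalIntegrable (μ := volume) 0 h
  have j3 := cR3.intervalIntegrable (μ := volume) 0 h
  have jG : IntervalIntegrable G volume 0 h := iG.intervalIntegrable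
  have main : ∫ y in (0 : ℝ)..h, ‖C0 * (Real.sin (π * (2 : ℤ) * y / h) : ℝ) +
        C2 * (Real.sin (π * (1 : ℤ) * y / h) : ℝ) *
          (2 * I * (Real.sin (π * (2 : ℤ) * (x0 y - c) / m) : ℝ))‖ ^ 2 ≤
      ∫ y in (0 : ℝ)..h, h ^ 2 * (G y + R0 y + R2 y + R3 y) := by
    apply intervalIntegral.integral_mono_on_of_le_Ioo hh.le
    · exact Continuous.intervalIntegrable (by fun_prop) _ _
    · exact (((jG.add j0).add j2).add j3).const_mul _
    intro y hy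
    obtain ⟨hy1, hy2⟩ := hz y hy
    have t1 := trace1 c (by linarith : 0 < 2 * m) (fun x => (H.dx x y).ofReal_comp)
      (H.sx.slice_cont y) (H.s0.slice_zero y) (H.sx.slice_zero y) hy1 (by simp [hy2])
    have tG : ‖xc m c W 0 y + xc m c W 2 y * ch (2 * m) c (-2) (x0 y)
        + xc m c W (-2) y * ch (2 * m) c 2 (x0 y)‖ ^ 2 ≤ G y := by
      refine t1.trans (le_of_eq ?_)
      simp only [hG, xc, Complex.norm_real, Real.norm_eq_abs, sq_abs]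
      congr 3
      field_simp
    rw [← ch_sub]
    set s1 : ℂ := ((Real.sin (π * (1 : ℤ) * y / h) : ℝ) : ℂ)
    set s2 : ℂ := ((Real.sin (π * (2 : ℤ) * y / h) : ℝ) : ℂ)
    set e1 := ch (2 * m) c (-2) (x0 y)
    set e2 := ch (2 * m) c 2 (x0 y)
    have n1 : ‖e1‖ = 1 := norm_ch _ _ _ _
    have n2 : ‖e2‖ = 1 := norm_ch _ _ _ _
    set B := xc m c W 0 y + xc m c W 2 y * e1 + xc m c W (-2) y * e2
    set q0 := xc m c W 0 y - 2 / h * C0 * s2
    set q2 := xc m c W 2 y - 2 / h * C2 * s1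
    set q3 := xc m c W (-2) y - 2 / h * -C2 * s1
    have hh' : (h : ℂ) ≠ 0 := by exact_mod_cast hh.ne'
    have e : C0 * s2 + C2 * s1 * (e1 - e2) = ((h / 2 : ℝ) : ℂ) * (B - q0 - q2 * e1 - q3 * e2) := by
      simp only [B, q0, q2, q3]
      push_cast
      field_simp
      ring
    have hn : ‖B - q0 - q2 * e1 - q3 * e2‖ ≤ ‖B‖ + ‖q0‖ + ‖q2‖ + ‖q3‖ := by
      refine (norm_sub_le _ _).trans ?_
      rw [norm_mul, n2, mul_one]
      gcongr
      refine (norm_sub_le _ _).trans ?_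
      rw [norm_mul, n1, mul_one]
      gcongr
      exact norm_sub_le _ _
    rw [e, norm_mul, mul_pow, Complex.norm_real, Real.norm_eq_abs, sq_abs]
    have h4 : ‖B - q0 - q2 * e1 - q3 * e2‖ ^ 2 ≤ 4 * (G y + R0 y + R2 y + R3 y) := by
      have h5 : ‖B - q0 - q2 * e1 - q3 * e2‖ ^ 2 ≤ (‖B‖ + ‖q0‖ + ‖q2‖ + ‖q3‖) ^ 2 := by gcongr
      have h6 : R0 y = ‖q0‖ ^ 2 := rfl
      have h7 : R2 y = ‖q2‖ ^ 2 := rfl
      have h8 : R3 y = ‖q3‖ ^ 2 := rfl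
      rw [h6, h7, h8]
      nlinarith [sq_nonneg (‖B‖ - ‖q0‖), sq_nonneg (‖B‖ - ‖q2‖), sq_nonneg (‖B‖ - ‖q3‖),
        sq_nonneg (‖q0‖ - ‖q2‖), sq_nonneg (‖q0‖ - ‖q3‖), sq_nonneg (‖q2‖ - ‖q3‖)]
    calc (h / 2) ^ 2 * ‖B - q0 - q2 * e1 - q3 * e2‖ ^ 2
        ≤ (h / 2) ^ 2 * (4 * (G y + R0 y + R2 y + R3 y)) := by gcongr
      _ = _ := by ring
  refine main.trans (le_of_eq ?_)
  rw [intervalIntegral.integral_const_mul, intervalIntegral.integral_add ((jG.add j0).add j2) j3,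
    intervalIntegral.integral_add (jG.add j0) j2, intervalIntegral.integral_add jG j0, eG, r0, r2,
    r3, norm_neg]
  field_simp

end Adm

end Pool.Agent.P.MP_2f6447_an
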