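import Mathlib

/-! Definitions used in the statement. -/

open MeasureTheory Set

namespace Pool.Agent.P.MP_2f6447_an

/-- The second Dirichlet eigenvalue of the Laplacian of a plane domain, by the min-max formula
(the formula of the frozen statement). -/
noncomputable def lam2 (Ω : Set (EuclideanSpace ℝ (Fin 2))) : ℝ :=
  sInf {r : ℝ | ∃ f g : EuclideanSpace ℝ (Fin 2) → ℝ,
    ContDiff ℝ 1 f ∧ ContDiff ℝ 1 g ∧ HasCompactSupport f ∧ HasCompactSupport g ∧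
    tsupport f ⊆ Ω ∧ tsupport g ⊆ Ω ∧ LinearIndependent ℝ ![f, g] ∧
    ∀ a b : ℝ, (∫ x, ‖fderiv ℝ (fun y => a * f y + b * g y) x‖ ^ 2) ≤
      r * ∫ x, (a * f x + b * g x) ^ 2}

/-- The open parallelogram with vertices `o`, `o + u`, `o + u + v`, `o + v`. -/
def parallelogram (o u v : EuclideanSpace ℝ (Fin 2)) : Set (EuclideanSpace ℝ (Fin 2)) :=
  {p | ∃ s ∈ Ioo (0 : ℝ) 1, ∃ t ∈ Ioo (0 : ℝ) 1, p = o + s • u + t • v}

/-- The open trapezoid with vertices `o`, `o + a e`, `o + v + b e`, `o + v`. -/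
def trapezoid (o e v : EuclideanSpace ℝ (Fin 2)) (a b : ℝ) : Set (EuclideanSpace ℝ (Fin 2)) :=
  {p | ∃ t ∈ Ioo (0 : ℝ) 1, ∃ s ∈ Ioo (0 : ℝ) ((1 - t) * a + t * b), p = o + s • e + t • v}

/-- A nondegenerate open parallelogram. -/
def IsParallelogram (T : Set (EuclideanSpace ℝ (Fin 2))) : Prop :=
  ∃ o u v : EuclideanSpace ℝ (Fin 2), LinearIndependent ℝ ![u, v] ∧ T = parallelogram o u v

/-- A nondegenerate open trapezoid with parallel sides of lengths `a, b ≥ 0` (direction the unit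
vector `e`) whose height `‖v - ⟪e, v⟫ e‖` is at most its midline `(a + b) / 2`. -/
def IsWideTrapezoid (T : Set (EuclideanSpace ℝ (Fin 2))) : Prop :=
  ∃ (o e v : EuclideanSpace ℝ (Fin 2)) (a b : ℝ), ‖e‖ = 1 ∧ LinearIndependent ℝ ![e, v] ∧
    0 ≤ a ∧ 0 ≤ b ∧ ‖v - (inner ℝ e v) • e‖ ≤ (a + b) / 2 ∧ T = trapezoid o e v a b

/-- An open rectangle with one side twice as long as the other. -/
def IsOneTwoRectangle (T : Set (EuclideanSpace ℝ (Fin 2))) : Prop :=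
  ∃ o u v : EuclideanSpace ℝ (Fin 2), v ≠ 0 ∧ inner ℝ u v = 0 ∧ ‖u‖ = 2 * ‖v‖ ∧
    T = parallelogram o u v

end Pool.Agent.P.MP_2f6447_an
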