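import Pool.Agent.P.MP_2f6447_an.Gap

/-! Doubling a function by a point reflection. -/

open MeasureTheory Set Complex Real

namespace Pool.Agent.P.MP_2f6447_an

/-- A continuous compactly supported function living between two graphs. -/
structure Bt (h : ℝ) (l r : ℝ → ℝ) (U : ℝ × ℝ → ℝ) : Prop where
  cont : Continuous U
  cpt : HasCompactSupport U
  supp : ∀ x y, U (x, y) ≠ 0 → y ∈ Ioo 0 h ∧ x ∈ Ioo (l y) (r y)

/-- The two graphs fit, together with their point reflections, into one period. -/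
structure Fit (m h c : ℝ) (l r : ℝ → ℝ) : Prop where
  lr : ∀ y ∈ Ioo 0 h, l y ≤ r y
  hr : ∀ y ∈ Ioo 0 h, r y + r (h - y) ≤ 2 * c
  hl : ∀ y ∈ Ioo 0 h, 2 * (c - m) ≤ l y + l (h - y)

variable {m h c : ℝ} {l r : ℝ → ℝ} {U Ux Uy : ℝ × ℝ → ℝ}

lemma refl_mem {h y : ℝ} (hy : y ∈ Ioo 0 h) : h - y ∈ Ioo 0 h :=
  ⟨by linarith [hy.2], by linarith [hy.1]⟩

lemma Bt.refl_supp (H : Bt h l r U) (F : Fit m h c l r) (x y : ℝ)
    (hx : U ((2 * c, h) - (x, y)) ≠ 0) : y ∈ Ioo 0 h ∧ x ∈ Ioo (r y) (l y + 2 * m) := by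
  obtain ⟨h1, h2⟩ := H.supp (2 * c - x) (h - y) hx
  have hy : y ∈ Ioo 0 h := by simpa using refl_mem h1
  have := F.hr y hy
  have := F.hl y hy
  exact ⟨hy, by linarith [h2.2], by linarith [h2.1]⟩

lemma Fit.r_le (F : Fit m h c l r) {y : ℝ} (hy : y ∈ Ioo 0 h) : r y ≤ l y + 2 * m := by
  have := F.hr y hy
  have := F.hl y hy
  have := F.lr _ (refl_mem hy)
  linarith

lemma Bt.refl_cpt (H : Bt h l r U) (q : ℝ × ℝ) : HasCompactSupport fun p => U (q - p) :=
  H.cpt.comp_homeomorph (Homeomorph.subLeft q)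

lemma Bt.sl (H : Bt h l r U) (F : Fit m h c l r) (ε : ℝ) :
    Sl m h l fun p => U p + ε * U ((2 * c, h) - p) where
  cont := by have := H.cont; fun_prop
  cpt := H.cpt.add (H.refl_cpt _).mul_left
  supp x y hxy := by
    by_cases h1 : U (x, y) = 0
    · have h2 : U ((2 * c, h) - (x, y)) ≠ 0 := by
        intro h'; apply hxy; simp only [h1, h']; simp
      obtain ⟨hy, hx⟩ := H.refl_supp F x y h2
      exact ⟨hy, lt_of_le_of_lt (F.lr y hy) hx.1, hx.2⟩
    · obtain ⟨hy, hx⟩ := H.supp x y h1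
      exact ⟨hy, hx.1, lt_of_lt_of_le hx.2 (F.r_le hy)⟩

lemma Bt.sq_integrable (H : Bt h l r U) : Integrable (fun p => U p ^ 2) := by
  have := integrable_normsq (μ := volume) H.cont H.cpt
  simpa using this

lemma Bt.integral_double (H : Bt h l r U) (F : Fit m h c l r) {ε : ℝ} (hε : ε ^ 2 = 1) :
    ∫ p, (U p + ε * U ((2 * c, h) - p)) ^ 2 = 2 * ∫ p, U p ^ 2 := by
  have : ∀ p, (U p + ε * U ((2 * c, h) - p)) ^ 2 = U p ^ 2 + U ((2 * c, h) - p) ^ 2 := by
    rintro ⟨x, y⟩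
    by_cases h1 : U (x, y) = 0
    · rw [h1, zero_add, mul_pow, hε]; ring
    · have h2 : U ((2 * c, h) - (x, y)) = 0 := by
        by_contra h'
        linarith [(H.refl_supp F x y h').2.1, (H.supp x y h1).2.2]
      rw [h2]; ring
  simp_rw [this]
  rw [integral_add H.sq_integrable (H.sq_integrable.comp_sub_left _),
    integral_sub_left_eq_self (fun p => U p ^ 2), two_mul]

lemma adm_double (hh : 0 < h) (F : Fit m h c l r) (H : Bt h l r U) (Hx : Bt h l r Ux)
    (Hy : Bt h l r Uy) (hx : ∀ x y, HasDerivAt (fun t => U (t, y)) (Ux (x, y)) x)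
    (hy : ∀ x y, HasDerivAt (fun t => U (x, t)) (Uy (x, y)) y)
    (orth : ∫ p, U p * (Real.sin (π * (p.1 - c) / m) * Real.sin (π * p.2 / h)) = 0) :
    Adm m h c l (fun p => U p + -1 * U ((2 * c, h) - p)) (fun p => Ux p + 1 * Ux ((2 * c, h) - p))
      (fun p => Uy p + 1 * Uy ((2 * c, h) - p)) where
  s0 := H.sl F _
  sx := Hx.sl F _
  sy := Hy.sl F _
  dx x y := by
    have h1 := (hx (2 * c - x) (h - y)).comp x ((hasDerivAt_id' x).const_sub (2 * c))
    have h2 := (hx x y).add (h1.const_mul (-1))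
    refine HasDerivAt.congr_deriv h2 ?_
    simp
  dy x y := by
    have h1 := (hy (2 * c - x) (h - y)).comp y ((hasDerivAt_id' y).const_sub h)
    have h2 := (hy x y).add (h1.const_mul (-1))
    refine HasDerivAt.congr_deriv h2 ?_
    simp
  odd p := by simp
  orth := by
    have hc := H.cont
    have i1 : Integrable fun p : ℝ × ℝ =>
        U p * (Real.sin (π * (p.1 - c) / m) * Real.sin (π * p.2 / h)) :=
      Continuous.integrable_of_hasCompactSupport (by fun_prop) H.cpt.mul_right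
    have e : ∀ p : ℝ × ℝ, (U p + -1 * U ((2 * c, h) - p)) *
        (Real.sin (π * (p.1 - c) / m) * Real.sin (π * p.2 / h)) =
        U p * (Real.sin (π * (p.1 - c) / m) * Real.sin (π * p.2 / h)) +
        U ((2 * c, h) - p) * (Real.sin (π * (((2 * c, h) - p).1 - c) / m) *
          Real.sin (π * ((2 * c, h) - p).2 / h)) := by
      intro p
      simp only [Prod.fst_sub, Prod.snd_sub]
      have e1 : π * (2 * c - p.1 - c) / m = -(π * (p.1 - c) / m) := by ring
      have e2 : π * (h - p.2) / h = π - π * p.2 / h := by field_simp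
      rw [e1, e2, Real.sin_neg, Real.sin_pi_sub]; ring
    simp_rw [e]
    rw [integral_add i1 (i1.comp_sub_left _), integral_sub_left_eq_self
      (fun p : ℝ × ℝ => U p * (Real.sin (π * (p.1 - c) / m) * Real.sin (π * p.2 / h))), orth]
    simp

theorem raw_energy (hh : 0 < h) (hm : h ≤ m) (F : Fit m h c l r) (H : Bt h l r U)
    (Hx : Bt h l r Ux) (Hy : Bt h l r Uy)
    (hx : ∀ x y, HasDerivAt (fun t => U (t, y)) (Ux (x, y)) x)
    (hy : ∀ x y, HasDerivAt (fun t => U (x, t)) (Uy (x, y)) y)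
    (orth : ∫ p, U p * (Real.sin (π * (p.1 - c) / m) * Real.sin (π * p.2 / h)) = 0) :
    4 * π ^ 2 / (m * h) * ∫ p, U p ^ 2 ≤ (∫ p, Ux p ^ 2) + ∫ p, Uy p ^ 2 := by
  have := (adm_double hh F H Hx Hy hx hy orth).energy hh hm
  rw [H.integral_double F (by norm_num), Hx.integral_double F (by norm_num),
    Hy.integral_double F (by norm_num)] at this
  linarith

theorem raw_gap (hh : 0 < h) (hm : h ≤ m) (F : Fit m h c l r) {x0 : ℝ → ℝ} (hx0 : Continuous x0)
    (hlr : x0 = l ∨ x0 = r)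
    (hI : m = 2 * h → 0 < ∫ y in (0 : ℝ)..h, Real.sin (π * (1 : ℤ) * y / h) ^ 2 *
      Real.sin (π * (2 : ℤ) * (x0 y - c) / m) ^ 2) :
    ∃ L : ℝ, 4 * π ^ 2 / (m * h) < L ∧ ∀ U Ux Uy : ℝ × ℝ → ℝ, Bt h l r U → Bt h l r Ux →
      Bt h l r Uy → (∀ x y, HasDerivAt (fun t => U (t, y)) (Ux (x, y)) x) →
      (∀ x y, HasDerivAt (fun t => U (x, t)) (Uy (x, y)) y) →
      ∫ p, U p * (Real.sin (π * (p.1 - c) / m) * Real.sin (π * p.2 / h)) = 0 →
      L * ∫ p, U p ^ 2 ≤ (∫ p, Ux p ^ 2) + ∫ p, Uy p ^ 2 := by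
  obtain ⟨K, hK, hg⟩ := gap c hh hm hx0 hI
  refine ⟨4 * π ^ 2 / (m * h) + 1 / K, lt_add_of_pos_right _ (by positivity), ?_⟩
  intro U Ux Uy H Hx Hy hx hy orth
  have := hg _ _ _ _ (adm_double hh F H Hx Hy hx hy orth) (fun y hy' => by
    have h1 := F.lr y hy'
    have h2 := F.r_le hy'
    have hmem : x0 y ∈ Icc (l y) (r y) := by
      rcases hlr with h | h <;> rw [h] <;> exact ⟨by linarith, by linarith⟩
    refine ⟨⟨hmem.1, hmem.2.trans h2⟩, ?_⟩
    have z1 : U (x0 y, y) = 0 := by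
      by_contra h'
      have := (H.supp _ _ h').2
      rcases hlr with h | h <;> rw [h] at this
      · exact lt_irrefl _ this.1
      · exact lt_irrefl _ this.2
    have z2 : U ((2 * c, h) - (x0 y, y)) = 0 := by
      by_contra h'
      linarith [(H.refl_supp F _ _ h').2.1, hmem.2]
    simp only [z1, z2]; simp)
  rw [H.integral_double F (by norm_num), Hx.integral_double F (by norm_num),
    Hy.integral_double F (by norm_num)] at this
  have h3 : 1 / K * ∫ p, U p ^ 2 ≤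
      (∫ p, Ux p ^ 2) + (∫ p, Uy p ^ 2) - 4 * π ^ 2 / (m * h) * ∫ p, U p ^ 2 := by
    rw [one_div, inv_mul_eq_div, div_le_iff₀ hK]
    linarith
  linarith

end Pool.Agent.P.MP_2f6447_an
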