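import Mathlib

/-! One-dimensional Fourier facts for functions that vanish outside an interval. -/

open MeasureTheory Set Complex Real

namespace Pool.Agent.P.MP_2f6447_an

/-- The character `exp (-2 pi i j (x - c) / P)`. -/
noncomputable def ch (P c : ℝ) (j : ℤ) (x : ℝ) : ℂ :=
  Complex.exp (-(2 * π * I * j * (x - c) / P))

/-- Unnormalised Fourier coefficient over the whole line. -/
noncomputable def co (P c : ℝ) (g : ℝ → ℂ) (j : ℤ) : ℂ := ∫ x, g x * ch P c j x

lemma hasSum_of_eq {ι E : Type*} [AddCommMonoid E] [TopologicalSpace E] {f g : ι → E} {s : E}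
    (h : HasSum f s) (e : ∀ i, f i = g i) : HasSum g s := by
  have : f = g := funext e
  rw [← this]; exact h

lemma continuous_ch (P c : ℝ) (j : ℤ) : Continuous (ch P c j) := by
  unfold ch; fun_prop

lemma norm_ch (P c : ℝ) (j : ℤ) (x : ℝ) : ‖ch P c j x‖ = 1 := by
  unfold ch
  have : -(2 * π * I * j * (x - c) / P : ℂ) = ((-(2 * π * j * (x - c) / P) : ℝ) : ℂ) * I := by
    push_cast; ring
  rw [this, Complex.norm_exp_ofReal_mul_I]

lemma hasDerivAt_ch (P c : ℝ) (j : ℤ) (x : ℝ) :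
    HasDerivAt (ch P c j) (-(2 * π * I * j / P) * ch P c j x) x := by
  unfold ch
  have h1 : HasDerivAt (fun x : ℝ => -(2 * π * I * j * ((x : ℂ) - c) / P)) (-(2 * π * I * j / P)) x := by
    have h0 : HasDerivAt (fun x : ℝ => (x : ℂ)) 1 x := Complex.ofRealCLM.hasDerivAt
    have := (((h0.sub_const (c : ℂ)).const_mul (2 * π * I * j)).div_const (P : ℂ)).fun_neg
    rw [mul_one] at this
    exact this
  exact h1.cexp.congr_deriv (mul_comm _ _)

lemma compactSupport_of_Ioo {E : Type*} [Zero E] {g : ℝ → E} {a b : ℝ}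
    (h : ∀ x, x ∉ Ioo a b → g x = 0) : HasCompactSupport g :=
  HasCompactSupport.intro (isCompact_Icc (a := a) (b := b))
    (fun x hx => h x (fun h' => hx (Ioo_subset_Icc_self h')))

lemma integral_eq_interval {E : Type*} [NormedAddCommGroup E] [NormedSpace ℝ E] {g : ℝ → E}
    {a b : ℝ} (h : ∀ x, x ∉ Ioo a b → g x = 0) : ∫ x in a..b, g x = ∫ x, g x := by
  apply intervalIntegral.integral_eq_integral_of_support_subset
  intro x hx
  by_contra h'
  exact hx (h x (fun h'' => h' (Ioo_subset_Ioc_self h'')))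

lemma co_eq {P c a : ℝ} (hP : 0 < P) {g : ℝ → ℂ} (h : ∀ x, x ∉ Ioo a (a + P) → g x = 0) (j : ℤ) :
    co P c g j = P * Complex.exp (2 * π * I * j * c / P) *
      fourierCoeffOn (lt_add_of_pos_right a hP) g j := by
  rw [fourierCoeffOn_eq_integral]
  simp only [fourier_coe_apply, add_sub_cancel_left]
  rw [integral_eq_interval (fun x hx => by simp [h x hx])]
  have hP' : (P : ℂ) ≠ 0 := by exact_mod_cast hP.ne'
  rw [co, Complex.real_smul, ← mul_assoc, ← integral_const_mul]
  congr 1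
  ext x
  simp only [ch, smul_eq_mul]
  push_cast
  have : -(2 * π * I * j * ((x : ℂ) - c) / P) = 2 * π * I * j * c / P + 2 * π * I * (-j) * x / P := by
    ring
  rw [this, Complex.exp_add]
  field_simp

lemma norm_co {P c a : ℝ} (hP : 0 < P) {g : ℝ → ℂ} (h : ∀ x, x ∉ Ioo a (a + P) → g x = 0) (j : ℤ) :
    ‖co P c g j‖ = P * ‖fourierCoeffOn (lt_add_of_pos_right a hP) g j‖ := by
  rw [co_eq hP h, norm_mul, norm_mul]
  have : (2 * π * I * j * c / P : ℂ) = ((2 * π * j * c / P : ℝ) : ℂ) * I := by push_cast; ring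
  rw [this, Complex.norm_exp_ofReal_mul_I]
  simp [abs_of_pos hP]

/-- Parseval. -/
lemma hasSum_co {P a : ℝ} (c : ℝ) (hP : 0 < P) {g : ℝ → ℂ} (hg : Continuous g)
    (h : ∀ x, x ∉ Ioo a (a + P) → g x = 0) :
    HasSum (fun j => ‖co P c g j‖ ^ 2) (P * ∫ x, ‖g x‖ ^ 2) := by
  have hL : MemLp g 2 (volume.restrict (Ioc a (a + P))) :=
    (hg.memLp_of_hasCompactSupport (compactSupport_of_Ioo h)).restrict _
  have := (hasSum_sq_fourierCoeffOn (lt_add_of_pos_right a hP) hL).mul_left (P ^ 2)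
  rw [integral_eq_interval (fun x hx => by simp [h x hx])] at this
  simp only [add_sub_cancel_left, smul_eq_mul] at this
  have e : P ^ 2 * (P⁻¹ * ∫ x, ‖g x‖ ^ 2) = P * ∫ x, ‖g x‖ ^ 2 := by field_simp
  rw [e] at this
  have e2 : (fun j => ‖co P c g j‖ ^ 2) =
      fun j => P ^ 2 * ‖fourierCoeffOn (lt_add_of_pos_right a hP) g j‖ ^ 2 := by
    ext j; rw [norm_co hP h, mul_pow]
  rw [e2]; exact this

lemma integrable_mul_ch {g : ℝ → ℂ} (hg : Continuous g) (hc : HasCompactSupport g) (P c : ℝ)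
    (j : ℤ) : Integrable (fun x => g x * ch P c j x) :=
  (hg.mul (continuous_ch P c j)).integrable_of_hasCompactSupport hc.mul_right

/-- Coefficients of the derivative. -/
lemma co_deriv (P c : ℝ) {g g' : ℝ → ℂ} (hd : ∀ x, HasDerivAt g (g' x) x) (hg' : Continuous g')
    (hc : HasCompactSupport g) (hc' : HasCompactSupport g') (j : ℤ) :
    co P c g' j = 2 * π * I * j / P * co P c g j := by
  have hg : Continuous g := continuous_iff_continuousAt.2 fun x => (hd x).continuousAt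
  have i1 := integrable_mul_ch hg hc P c j
  have i2 := integrable_mul_ch hg' hc' P c j
  have key := integral_eq_zero_of_hasDerivAt_of_integrable
    (f := fun x => g x * ch P c j x)
    (f' := fun x => g' x * ch P c j x - 2 * π * I * j / P * (g x * ch P c j x))
    (fun x => ((hd x).mul (hasDerivAt_ch P c j x)).congr_deriv (by ring))
    (i2.sub (i1.const_mul _)) i1
  rw [integral_sub i2 (i1.const_mul _), integral_const_mul] at key
  unfold co
  exact sub_eq_zero.1 key

lemma norm_co_deriv_sq (P c : ℝ) {g g' : ℝ → ℂ} (hd : ∀ x, HasDerivAt g (g' x) x)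
    (hg' : Continuous g') (hc : HasCompactSupport g) (hc' : HasCompactSupport g') (j : ℤ) :
    ‖co P c g' j‖ ^ 2 = (2 * π / P) ^ 2 * ((j : ℝ) ^ 2 * ‖co P c g j‖ ^ 2) := by
  rw [co_deriv P c hd hg' hc hc', norm_mul, mul_pow]
  have : (2 * π * I * j / P : ℂ) = ((2 * π * j / P : ℝ) : ℂ) * I := by push_cast; ring
  rw [this, norm_mul, Complex.norm_I, mul_one, Complex.norm_real, Real.norm_eq_abs, sq_abs]
  ring

/-- The constant `sum over nonzero j of 1 / j ^ 2`. -/
noncomputable def K1 : ℝ := ∑' j : ℤ, 1 / (j : ℝ) ^ 2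

lemma summable_K1 : Summable fun j : ℤ => 1 / (j : ℝ) ^ 2 :=
  Real.summable_one_div_int_pow.2 (by norm_num)

lemma K1_nonneg : 0 ≤ K1 := tsum_nonneg fun j => by positivity

/-- Cauchy-Schwarz for a sequence vanishing at `0`. -/
lemma tsum_cs {t : ℤ → ℝ} (ht : ∀ j, 0 ≤ t j) (h0 : t 0 = 0) {M : ℝ}
    (hM : HasSum (fun j : ℤ => (j : ℝ) ^ 2 * t j ^ 2) M) :
    Summable t ∧ (∑' j, t j) ^ 2 ≤ K1 * M := by
  have hM0 : 0 ≤ M := hM.nonneg fun j => by positivity
  have fin : ∀ s : Finset ℤ, ∑ j ∈ s, t j ≤ √(K1 * M) := by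
    intro s
    apply Real.le_sqrt_of_sq_le
    have e : ∑ j ∈ s, t j = ∑ j ∈ s, (1 / (j : ℝ)) * ((j : ℝ) * t j) := by
      refine Finset.sum_congr rfl fun j _ => ?_
      by_cases hj : j = 0
      · subst hj; simp [h0]
      · have : (j : ℝ) ≠ 0 := by exact_mod_cast hj
        field_simp
    rw [e]
    refine (Finset.sum_mul_sq_le_sq_mul_sq s _ _).trans ?_
    apply mul_le_mul
    · have := summable_K1.sum_le_tsum s (fun j _ => by positivity)
      simpa [K1, div_pow] using this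
    · have := sum_le_hasSum s (fun j _ => by positivity) hM
      simpa [mul_pow] using this
    · positivity
    · exact K1_nonneg
  have hs : Summable t := summable_of_sum_le ht fin
  refine ⟨hs, ?_⟩
  have h1 : ∑' j, t j ≤ √(K1 * M) := hs.tsum_le_of_sum_le fin
  have h2 : 0 ≤ ∑' j, t j := tsum_nonneg ht
  calc (∑' j, t j) ^ 2 ≤ (√(K1 * M)) ^ 2 := by gcongr
    _ = K1 * M := Real.sq_sqrt (mul_nonneg K1_nonneg hM0)

/-- Pointwise Fourier expansion. -/
lemma hasSum_pointwise {P a : ℝ} (c : ℝ) (hP : 0 < P) {g : ℝ → ℂ} (hg : Continuous g)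
    (h : ∀ x, x ∉ Ioo a (a + P) → g x = 0) (hs : Summable fun j => ‖co P c g j‖)
    {x0 : ℝ} (hx0 : x0 ∈ Icc a (a + P)) :
    HasSum (fun j => co P c g j * ch P c (-j) x0) (P * g x0) := by
  have : Fact (0 < P) := ⟨hP⟩
  have ha : g a = 0 := h a (by simp)
  have hb : g (a + P) = 0 := h _ (by simp)
  let G : C(AddCircle P, ℂ) := ⟨AddCircle.liftIco P a g,
    AddCircle.liftIco_continuous (by rw [ha, hb]) hg.continuousOn⟩
  have hG : ∀ j, fourierCoeff G j = fourierCoeffOn (lt_add_of_pos_right a hP) g j := fun j =>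
    fourierCoeff_liftIco_eq g j
  have hsum : Summable (fourierCoeff G) := by
    apply Summable.of_norm
    refine (hs.mul_left P⁻¹).congr fun j => ?_
    rw [hG, norm_co hP h]; field_simp
  have key := (has_pointwise_sum_fourier_series_of_summable hsum (x0 : AddCircle P)).mul_left (P : ℂ)
  have hv : G (x0 : AddCircle P) = g x0 := by
    rcases hx0.2.eq_or_lt with h1 | h1
    · subst h1
      have : ((a + P : ℝ) : AddCircle P) = (a : ℝ) := AddCircle.coe_add_period P a
      rw [this, hb]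
      change AddCircle.liftIco P a g (a : ℝ) = 0
      rw [AddCircle.liftIco_coe_apply ⟨le_rfl, by linarith⟩, ha]
    · exact AddCircle.liftIco_coe_apply ⟨hx0.1, h1⟩
  rw [hv] at key
  have e : (fun j => co P c g j * ch P c (-j) x0) =
      fun j => (P : ℂ) * (fourierCoeff G j • fourier j (x0 : AddCircle P)) := by
    ext j
    rw [hG, co_eq hP h, fourier_coe_apply, smul_eq_mul, ch]
    have : (2 * π * I * j * x0 / P : ℂ) =
        2 * π * I * j * c / P + -(2 * π * I * ((-j : ℤ) : ℂ) * (x0 - c) / P) := by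
      push_cast; ring
    rw [this, Complex.exp_add]; ring
  rw [e]; exact key

/-- At a zero of `g` the modes `0, 2, -2` are controlled by the energy of the other modes. -/
lemma trace1 {P a : ℝ} (c : ℝ) (hP : 0 < P) {g g' : ℝ → ℂ} (hd : ∀ x, HasDerivAt g (g' x) x)
    (hg' : Continuous g') (h : ∀ x, x ∉ Ioo a (a + P) → g x = 0)
    (h' : ∀ x, x ∉ Ioo a (a + P) → g' x = 0) {x0 : ℝ} (hx0 : x0 ∈ Icc a (a + P)) (h0 : g x0 = 0) :
    ‖co P c g 0 + co P c g 2 * ch P c (-2) x0 + co P c g (-2) * ch P c 2 x0‖ ^ 2 ≤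
      K1 * ((P / (2 * π)) ^ 2 * (P * ∫ x, ‖g' x‖ ^ 2) - 4 * ‖co P c g 2‖ ^ 2
        - 4 * ‖co P c g (-2)‖ ^ 2) := by
  have hg : Continuous g := continuous_iff_continuousAt.2 fun x => (hd x).continuousAt
  have hc := compactSupport_of_Ioo h
  have hc' := compactSupport_of_Ioo h'
  have hM : HasSum (fun j : ℤ => (j : ℝ) ^ 2 * ‖co P c g j‖ ^ 2)
      ((P / (2 * π)) ^ 2 * (P * ∫ x, ‖g' x‖ ^ 2)) := by
    have := (hasSum_co c hP hg' h').mul_left ((P / (2 * π)) ^ 2)
    refine hasSum_of_eq this fun j => ?_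
    rw [norm_co_deriv_sq P c hd hg' hc hc']
    have := Real.pi_pos
    field_simp
  set t : ℤ → ℝ := fun j => if j = 0 ∨ j = 2 ∨ j = -2 then 0 else ‖co P c g j‖ with ht
  have ht0 : ∀ j, 0 ≤ t j := fun j => by simp only [ht]; split_ifs <;> simp
  have hM' : HasSum (fun j : ℤ => (j : ℝ) ^ 2 * t j ^ 2)
      ((P / (2 * π)) ^ 2 * (P * ∫ x, ‖g' x‖ ^ 2) - 4 * ‖co P c g 2‖ ^ 2
        - 4 * ‖co P c g (-2)‖ ^ 2) := by
    have := (hM.sub (hasSum_ite_eq (2 : ℤ) (4 * ‖co P c g 2‖ ^ 2))).sub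
      (hasSum_ite_eq (-2 : ℤ) (4 * ‖co P c g (-2)‖ ^ 2))
    refine hasSum_of_eq this fun j => ?_
    simp only [ht]
    by_cases h1 : j = 0
    · subst h1; simp
    by_cases h2 : j = 2
    · subst h2; norm_num
    by_cases h3 : j = -2
    · subst h3; norm_num
    simp [h1, h2, h3]
  obtain ⟨hts, htb⟩ := tsum_cs ht0 (by simp [ht]) hM'
  have hs : Summable fun j => ‖co P c g j‖ := by
    have := ((hts.add (hasSum_ite_eq (0 : ℤ) ‖co P c g 0‖).summable).add
      (hasSum_ite_eq (2 : ℤ) ‖co P c g 2‖).summable).add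
      (hasSum_ite_eq (-2 : ℤ) ‖co P c g (-2)‖).summable
    refine this.congr fun j => ?_
    simp only [ht]
    by_cases h1 : j = 0
    · subst h1; simp
    by_cases h2 : j = 2
    · subst h2; norm_num
    by_cases h3 : j = -2
    · subst h3; norm_num
    simp [h1, h2, h3]
  have hp := hasSum_pointwise c hP hg h hs hx0
  rw [h0, mul_zero] at hp
  set z : ℤ → ℂ := fun j => if j = 0 ∨ j = 2 ∨ j = -2 then 0 else co P c g j * ch P c (-j) x0
    with hz
  have hzs : HasSum z (0 - co P c g 0 - co P c g 2 * ch P c (-2) x0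
      - co P c g (-2) * ch P c 2 x0) := by
    have := ((hp.sub (hasSum_ite_eq (0 : ℤ) (co P c g 0))).sub
      (hasSum_ite_eq (2 : ℤ) (co P c g 2 * ch P c (-2) x0))).sub
      (hasSum_ite_eq (-2 : ℤ) (co P c g (-2) * ch P c 2 x0))
    refine hasSum_of_eq this fun j => ?_
    simp only [hz]
    by_cases h1 : j = 0
    · subst h1; simp [ch]
    by_cases h2 : j = 2
    · subst h2; norm_num
    by_cases h3 : j = -2
    · subst h3; norm_num
    simp [h1, h2, h3]
  have hzn : ∀ j, ‖z j‖ ≤ t j := by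
    intro j
    simp only [hz, ht]
    split_ifs
    · simp
    · rw [norm_mul, norm_ch, mul_one]
  have hb := hzs.norm_le_of_bounded hts.hasSum hzn
  have e : co P c g 0 + co P c g 2 * ch P c (-2) x0 + co P c g (-2) * ch P c 2 x0 =
      -(0 - co P c g 0 - co P c g 2 * ch P c (-2) x0 - co P c g (-2) * ch P c 2 x0) := by ring
  rw [e, norm_neg]
  exact (pow_le_pow_left₀ (norm_nonneg _) hb 2).trans htb

end Pool.Agent.P.MP_2f6447_an
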