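import Pool.Agent.P.MP_2f6447_an.Fourier1

/-! Sine and cosine series on an interval `(0, h)`. -/

open MeasureTheory Set Complex Real

namespace Pool.Agent.P.MP_2f6447_an

/-- Sine coefficient. -/
noncomputable def sc (h : ℝ) (f : ℝ → ℂ) (n : ℤ) : ℂ :=
  ∫ y, f y * (Real.sin (π * n * y / h) : ℝ)

/-- Cosine coefficient. -/
noncomputable def cc (h : ℝ) (f : ℝ → ℂ) (n : ℤ) : ℂ :=
  ∫ y, f y * (Real.cos (π * n * y / h) : ℝ)

lemma integrable_normsq {X E : Type*} [TopologicalSpace X] [T2Space X] [MeasurableSpace X]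
    [OpensMeasurableSpace X] {μ : Measure X} [IsFiniteMeasureOnCompacts μ] [NormedAddCommGroup E]
    {f : X → E} (hf : Continuous f) (hc : HasCompactSupport f) :
    Integrable (fun y => ‖f y‖ ^ 2) μ := by
  have h1 : Continuous fun y => ‖f y‖ ^ 2 := by fun_prop
  have h2 : HasCompactSupport fun y => ‖f y‖ ^ 2 :=
    hc.mono fun x hx h => hx (by simp [h])
  exact h1.integrable_of_hasCompactSupport h2

lemma ch_eq (h : ℝ) (n : ℤ) (y : ℝ) :
    ch (2 * h) 0 n y = (Real.cos (π * n * y / h) : ℝ) - I * (Real.sin (π * n * y / h) : ℝ) := by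
  unfold ch
  have : -(2 * π * I * n * ((y : ℂ) - (0 : ℝ)) / ((2 * h : ℝ) : ℂ)) =
      ((-(π * n * y / h) : ℝ) : ℂ) * I := by
    push_cast
    by_cases hh : (h : ℂ) = 0
    · simp [hh]
    · field_simp; ring
  rw [this, Complex.exp_mul_I, ← Complex.ofReal_cos, ← Complex.ofReal_sin, Real.cos_neg,
    Real.sin_neg]
  push_cast; ring

lemma hasSum_ext {h : ℝ} (hh : 0 < h) {f : ℝ → ℂ} (hf : Continuous f)
    (h0 : ∀ y, y ∉ Ioo 0 h → f y = 0) (ε : ℂ) (hε : ‖ε‖ = 1) :
    HasSum (fun n : ℤ => ‖∫ y, f y * (ch (2 * h) 0 n y + ε * ch (2 * h) 0 n (-y))‖ ^ 2)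
      (4 * h * ∫ y, ‖f y‖ ^ 2) := by
  have hc := compactSupport_of_Ioo h0
  have hc2 : HasCompactSupport fun y => f (-y) :=
    compactSupport_of_Ioo (a := -h) (b := 0) fun y hy => h0 _ fun h' =>
      hy ⟨by linarith [h'.2], by linarith [h'.1]⟩
  have hf2 : Continuous fun y => f (-y) := hf.comp continuous_neg
  have key := hasSum_co (P := 2 * h) (a := -h) 0 (by linarith) (g := fun y => f y + ε * f (-y))
    (by fun_prop) (fun y hy => by
      rw [h0 y, h0 (-y)]
      · simp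
      · intro h'; exact hy ⟨by linarith [h'.2], by linarith [h'.1]⟩
      · intro h'; exact hy ⟨by linarith [h'.1], by linarith [h'.2]⟩)
  have e1 : ∫ y, ‖f y + ε * f (-y)‖ ^ 2 = 2 * ∫ y, ‖f y‖ ^ 2 := by
    have : ∀ y, ‖f y + ε * f (-y)‖ ^ 2 = ‖f y‖ ^ 2 + ‖f (-y)‖ ^ 2 := by
      intro y
      by_cases hy : 0 < y
      · rw [h0 (-y) (fun h' => by linarith [h'.1])]; simp
      · rw [h0 y (fun h' => hy h'.1)]; simp [hε]
    simp_rw [this]
    rw [integral_add, integral_neg_eq_self (fun y => ‖f y‖ ^ 2), two_mul]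
    · exact integrable_normsq hf hc
    · exact integrable_normsq hf2 hc2
  rw [e1] at key
  have e2 : 2 * h * (2 * ∫ y, ‖f y‖ ^ 2) = 4 * h * ∫ y, ‖f y‖ ^ 2 := by ring
  rw [e2] at key
  refine hasSum_of_eq key fun n => ?_
  congr 2
  unfold co
  have i1 := integrable_mul_ch hf hc (2 * h) 0 n
  have i2 := integrable_mul_ch hf2 hc2 (2 * h) 0 n
  have i3 : Integrable fun y => f y * ch (2 * h) 0 n (-y) :=
    (hf.mul ((continuous_ch _ _ _).comp continuous_neg)).integrable_of_hasCompactSupport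
      hc.mul_right
  have e3 : ∫ y, f (-y) * ch (2 * h) 0 n y = ∫ y, f y * ch (2 * h) 0 n (-y) := by
    rw [← integral_neg_eq_self (fun y => f y * ch (2 * h) 0 n (-y))]
    simp
  calc ∫ y, (f y + ε * f (-y)) * ch (2 * h) 0 n y
      = ∫ y, (f y * ch (2 * h) 0 n y + ε * (f (-y) * ch (2 * h) 0 n y)) := by
        congr 1; ext y; ring
    _ = (∫ y, f y * ch (2 * h) 0 n y) + ε * ∫ y, f y * ch (2 * h) 0 n (-y) := by
        rw [integral_add i1 (i2.const_mul _), integral_const_mul, e3]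
    _ = ∫ y, (f y * ch (2 * h) 0 n y + ε * (f y * ch (2 * h) 0 n (-y))) := by
        rw [integral_add i1 (i3.const_mul _), integral_const_mul]
    _ = _ := by congr 1; ext y; ring

lemma hasSum_sc {h : ℝ} (hh : 0 < h) {f : ℝ → ℂ} (hf : Continuous f)
    (h0 : ∀ y, y ∉ Ioo 0 h → f y = 0) :
    HasSum (fun n : ℤ => ‖sc h f n‖ ^ 2) (h * ∫ y, ‖f y‖ ^ 2) := by
  have key := (hasSum_ext hh hf h0 (-1) (by simp)).mul_left (1 / 4)
  have e2 : 1 / 4 * (4 * h * ∫ y, ‖f y‖ ^ 2) = h * ∫ y, ‖f y‖ ^ 2 := by ring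
  rw [e2] at key
  refine hasSum_of_eq key fun n => ?_
  have : ∫ y, f y * (ch (2 * h) 0 n y + -1 * ch (2 * h) 0 n (-y)) = -2 * I * sc h f n := by
    rw [sc, ← integral_const_mul]
    congr 1; ext y
    rw [ch_eq, ch_eq]
    have : π * n * -y / h = -(π * n * y / h) := by ring
    rw [this, Real.cos_neg, Real.sin_neg]
    push_cast; ring
  rw [this]
  simp [mul_pow]; ring

lemma hasSum_cc {h : ℝ} (hh : 0 < h) {f : ℝ → ℂ} (hf : Continuous f)
    (h0 : ∀ y, y ∉ Ioo 0 h → f y = 0) :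
    HasSum (fun n : ℤ => ‖cc h f n‖ ^ 2) (h * ∫ y, ‖f y‖ ^ 2) := by
  have key := (hasSum_ext hh hf h0 1 (by simp)).mul_left (1 / 4)
  have e2 : 1 / 4 * (4 * h * ∫ y, ‖f y‖ ^ 2) = h * ∫ y, ‖f y‖ ^ 2 := by ring
  rw [e2] at key
  refine hasSum_of_eq key fun n => ?_
  have : ∫ y, f y * (ch (2 * h) 0 n y + 1 * ch (2 * h) 0 n (-y)) = 2 * cc h f n := by
    rw [cc, ← integral_const_mul]
    congr 1; ext y
    rw [ch_eq, ch_eq]
    have : π * n * -y / h = -(π * n * y / h) := by ring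
    rw [this, Real.cos_neg, Real.sin_neg]
    push_cast; ring
  rw [this]
  simp [mul_pow]; ring

lemma sc_neg (h : ℝ) (f : ℝ → ℂ) (n : ℤ) : sc h f (-n) = -sc h f n := by
  unfold sc
  rw [← integral_neg]
  congr 1; ext y
  have : π * ((-n : ℤ) : ℝ) * y / h = -(π * n * y / h) := by push_cast; ring
  rw [this, Real.sin_neg]; push_cast; ring

lemma sc_zero (h : ℝ) (f : ℝ → ℂ) : sc h f 0 = 0 := by
  simp [sc]

lemma integral_sin_sq_mode {h : ℝ} (hh : 0 < h) {k : ℤ} (hk : k ≠ 0) :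
    ∫ y in (0 : ℝ)..h, Real.sin (π * k * y / h) ^ 2 = h / 2 := by
  have hk' : (k : ℝ) ≠ 0 := by exact_mod_cast hk
  have hp := Real.pi_pos
  have hc : π * k / h ≠ 0 := by positivity
  have e : ∀ y, π * k * y / h = π * k / h * y := fun y => by ring
  simp_rw [e]
  rw [intervalIntegral.integral_comp_mul_left (fun t => Real.sin t ^ 2) hc, integral_sin_sq]
  have : π * k / h * h = k * π := by field_simp
  rw [this, mul_zero, Real.sin_int_mul_pi]
  simp only [Real.sin_zero, smul_eq_mul]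
  field_simp
  ring

/-- The distance from one sine mode. -/
lemma remainder_sc {h : ℝ} (hh : 0 < h) {f : ℝ → ℂ} (hf : Continuous f)
    (h0 : ∀ y, y ∉ Ioo 0 h → f y = 0) {k : ℤ} (hk : k ≠ 0) :
    ∫ y in (0 : ℝ)..h, ‖f y - 2 / h * sc h f k * (Real.sin (π * k * y / h) : ℝ)‖ ^ 2 =
      (∫ y, ‖f y‖ ^ 2) - 2 / h * ‖sc h f k‖ ^ 2 := by
  set β : ℂ := 2 / h * sc h f k with hβ
  have e : ∀ y, ‖f y - β * (Real.sin (π * k * y / h) : ℝ)‖ ^ 2 =
      ‖f y‖ ^ 2 - 2 * (f y * (Real.sin (π * k * y / h) : ℝ) * (starRingEnd ℂ) β).re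
        + ‖β‖ ^ 2 * Real.sin (π * k * y / h) ^ 2 := by
    intro y
    simp only [Complex.sq_norm, Complex.normSq_apply, Complex.sub_re, Complex.sub_im,
      Complex.mul_re, Complex.mul_im, Complex.ofReal_re, Complex.ofReal_im, Complex.conj_re,
      Complex.conj_im]
    ring
  simp_rw [e]
  have c1 : Continuous fun y => ‖f y‖ ^ 2 := by fun_prop
  have c2 : Continuous fun y => f y * (Real.sin (π * k * y / h) : ℝ) * (starRingEnd ℂ) β := by
    fun_prop
  have c3 : Continuous fun y => ‖β‖ ^ 2 * Real.sin (π * k * y / h) ^ 2 := by fun_prop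
  have c2' : Continuous fun y =>
      2 * (f y * (Real.sin (π * k * y / h) : ℝ) * (starRingEnd ℂ) β).re := by fun_prop
  rw [intervalIntegral.integral_add ((c1.fun_sub c2').intervalIntegrable _ _)
    (c3.intervalIntegrable _ _), intervalIntegral.integral_sub (c1.intervalIntegrable _ _)
    (c2'.intervalIntegrable _ _), intervalIntegral.integral_const_mul,
    intervalIntegral.integral_const_mul, integral_sin_sq_mode hh hk,
    integral_eq_interval (fun y hy => by simp [h0 y hy])]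
  have e2 : ∫ y in (0 : ℝ)..h, (f y * (Real.sin (π * k * y / h) : ℝ) * (starRingEnd ℂ) β).re =
      (sc h f k * (starRingEnd ℂ) β).re := by
    have := Complex.reCLM.intervalIntegral_comp_comm (μ := volume) (c2.intervalIntegrable 0 h)
    simp only [Complex.reCLM_apply] at this
    rw [this, intervalIntegral.integral_mul_const,
      integral_eq_interval (fun y hy => by simp [h0 y hy])]
    rfl
  rw [e2, hβ]
  have : (2 / h : ℂ) = ((2 / h : ℝ) : ℂ) := by push_cast; ring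
  rw [this]
  simp only [Complex.sq_norm, Complex.normSq_apply, Complex.mul_re, Complex.mul_im,
    Complex.ofReal_re, Complex.ofReal_im, Complex.conj_re, Complex.conj_im]
  field_simp
  ring

end Pool.Agent.P.MP_2f6447_an
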