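import Pool.Agent.P.MP_2f6447_an.Fourier2

/-! Parseval on the flat cylinder of circumference `2 m` and height `h`. -/

open MeasureTheory Set Complex Real

namespace Pool.Agent.P.MP_2f6447_an

/-- A continuous compactly supported function whose horizontal slices lie in intervals of
length `2 m` at heights in `(0, h)`. -/
structure Sl (m h : ℝ) (a : ℝ → ℝ) (W : ℝ × ℝ → ℝ) : Prop where
  cont : Continuous W
  cpt : HasCompactSupport W
  supp : ∀ x y, W (x, y) ≠ 0 → y ∈ Ioo 0 h ∧ x ∈ Ioo (a y) (a y + 2 * m)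

/-- Horizontal Fourier coefficient at height `y`. -/
noncomputable def xc (m c : ℝ) (W : ℝ × ℝ → ℝ) (j : ℤ) (y : ℝ) : ℂ :=
  co (2 * m) c (fun x => (W (x, y) : ℂ)) j

lemma hasSum_integral_nonneg {ι X : Type*} [Countable ι] [MeasurableSpace X] {μ : Measure X}
    {F : ι → X → ℝ} {G : X → ℝ} (hF : ∀ i, Integrable (F i) μ) (hG : Integrable G μ)
    (h0 : ∀ i x, 0 ≤ F i x) (hs : ∀ x, HasSum (fun i => F i x) (G x)) :
    HasSum (fun i => ∫ x, F i x ∂μ) (∫ x, G x ∂μ) := by
  have hsum : Summable fun i => ∫ x, ‖F i x‖ ∂μ := by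
    apply summable_of_sum_le (c := ∫ x, G x ∂μ)
    · intro i; exact integral_nonneg fun x => norm_nonneg _
    · intro s
      rw [← integral_finsetSum s (fun i _ => (hF i).norm)]
      apply integral_mono (integrable_finsetSum s fun i _ => (hF i).norm) hG
      intro x
      have := sum_le_hasSum s (fun i _ => h0 i x) (hs x)
      refine le_trans (le_of_eq ?_) this
      exact Finset.sum_congr rfl fun i _ => Real.norm_of_nonneg (h0 i x)
  have := hasSum_integral_of_summable_integral_norm hF hsum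
  have e : (fun x => ∑' i, F i x) = G := funext fun x => (hs x).tsum_eq
  rw [e] at this
  exact this

lemma hasSum_prod_nonneg {α β : Type*} {f : α × β → ℝ} {g : α → ℝ} {S : ℝ} (h0 : ∀ p, 0 ≤ f p)
    (hf : ∀ i, HasSum (fun k => f (i, k)) (g i)) (hg : HasSum g S) : HasSum f S := by
  have hs : Summable f := by
    refine (summable_prod_of_nonneg h0).2 ⟨fun i => (hf i).summable, ?_⟩
    exact hg.summable.congr fun i => (hf i).tsum_eq.symm
  have := hs.hasSum.prod_fiberwise hf
  rw [← this.unique hg]; exact hs.hasSum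

namespace Sl

variable {m h : ℝ} {a : ℝ → ℝ} {W : ℝ × ℝ → ℝ}

lemma slice_zero (H : Sl m h a W) (y x : ℝ) (hx : x ∉ Ioo (a y) (a y + 2 * m)) :
    (W (x, y) : ℂ) = 0 := by
  have : W (x, y) = 0 := by
    by_contra h'; exact hx (H.supp x y h').2
  simp [this]

lemma slice_cont (H : Sl m h a W) (y : ℝ) : Continuous fun x => (W (x, y) : ℂ) := by
  have := H.cont; fun_prop

lemma xc_zero (H : Sl m h a W) (c : ℝ) (j : ℤ) (y : ℝ) (hy : y ∉ Ioo 0 h) : xc m c W j y = 0 := by
  have : ∀ x, W (x, y) = 0 := fun x => by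
    by_contra h'; exact hy (H.supp x y h').1
  simp [xc, co, this]

lemma xc_cont (H : Sl m h a W) (c : ℝ) (j : ℤ) : Continuous (xc m c W j) := by
  have hK : IsCompact (Prod.fst '' tsupport W) := H.cpt.isCompact.image continuous_fst
  have hc := H.cont
  have hch := continuous_ch (2 * m) c j
  have := continuous_parametric_integral_of_continuous (μ := (volume : Measure ℝ))
    (f := fun y x => (W (x, y) : ℂ) * ch (2 * m) c j x) (by fun_prop) hK
  refine this.congr fun y => ?_
  unfold xc co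
  apply setIntegral_eq_integral_of_forall_compl_eq_zero
  intro x hx
  have : W (x, y) = 0 := by
    by_contra h'
    exact hx ⟨(x, y), subset_tsupport _ h', rfl⟩
  simp [this]

lemma sq_integrable (H : Sl m h a W) : Integrable (fun p => W p ^ 2) := by
  have := integrable_normsq (μ := volume) H.cont H.cpt
  simpa using this

lemma xc_sq_integrable (H : Sl m h a W) (c : ℝ) (j : ℤ) :
    Integrable fun y => ‖xc m c W j y‖ ^ 2 :=
  integrable_normsq (H.xc_cont c j) (compactSupport_of_Ioo (H.xc_zero c j))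

lemma slice_integrable (H : Sl m h a W) : Integrable fun y => ∫ x, W (x, y) ^ 2 := by
  have := H.sq_integrable
  rw [Measure.volume_eq_prod] at this
  exact this.integral_prod_right

lemma integral_slice (H : Sl m h a W) : ∫ y, ∫ x, W (x, y) ^ 2 = ∫ p, W p ^ 2 := by
  have := H.sq_integrable
  rw [Measure.volume_eq_prod] at this ⊢
  exact (integral_prod_symm _ this).symm

lemma hasSum_slice (H : Sl m h a W) (hm : 0 < m) (c y : ℝ) :
    HasSum (fun j => ‖xc m c W j y‖ ^ 2) (2 * m * ∫ x, W (x, y) ^ 2) := by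
  have := hasSum_co c (by linarith : 0 < 2 * m) (H.slice_cont y) (H.slice_zero y)
  simpa [xc] using this

lemma hasSum_rows (H : Sl m h a W) (hm : 0 < m) (c : ℝ) :
    HasSum (fun j => ∫ y, ‖xc m c W j y‖ ^ 2) (2 * m * ∫ p, W p ^ 2) := by
  have := hasSum_integral_nonneg (H.xc_sq_integrable c) (H.slice_integrable.const_mul (2 * m))
    (fun j y => by positivity) (H.hasSum_slice hm c)
  rw [integral_const_mul, H.integral_slice] at this
  exact this

lemma hasSum_row_sc (H : Sl m h a W) (hh : 0 < h) (c : ℝ) (j : ℤ) :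
    HasSum (fun n => ‖sc h (xc m c W j) n‖ ^ 2) (h * ∫ y, ‖xc m c W j y‖ ^ 2) :=
  hasSum_sc hh (H.xc_cont c j) (H.xc_zero c j)

lemma hasSum_row_cc (H : Sl m h a W) (hh : 0 < h) (c : ℝ) (j : ℤ) :
    HasSum (fun n => ‖cc h (xc m c W j) n‖ ^ 2) (h * ∫ y, ‖xc m c W j y‖ ^ 2) :=
  hasSum_cc hh (H.xc_cont c j) (H.xc_zero c j)

lemma hasSum_sc2 (H : Sl m h a W) (hm : 0 < m) (hh : 0 < h) (c : ℝ) :
    HasSum (fun p : ℤ × ℤ => ‖sc h (xc m c W p.1) p.2‖ ^ 2) (h * (2 * m * ∫ p, W p ^ 2)) :=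
  hasSum_prod_nonneg (f := fun p : ℤ × ℤ => ‖sc h (xc m c W p.1) p.2‖ ^ 2)
    (fun p => by positivity) (H.hasSum_row_sc hh c)
    ((H.hasSum_rows hm c).mul_left h)

lemma hasSum_cc2 (H : Sl m h a W) (hm : 0 < m) (hh : 0 < h) (c : ℝ) :
    HasSum (fun p : ℤ × ℤ => ‖cc h (xc m c W p.1) p.2‖ ^ 2) (h * (2 * m * ∫ p, W p ^ 2)) :=
  hasSum_prod_nonneg (f := fun p : ℤ × ℤ => ‖cc h (xc m c W p.1) p.2‖ ^ 2)
    (fun p => by positivity) (H.hasSum_row_cc hh c)
    ((H.hasSum_rows hm c).mul_left h)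

lemma integrable_test (H : Sl m h a W) {φ : ℝ × ℝ → ℂ} (hφ : Continuous φ) :
    Integrable fun p => (W p : ℂ) * φ p := by
  have hc := H.cont
  have h1 : Continuous fun p => (W p : ℂ) * φ p := by fun_prop
  have h2 : HasCompactSupport fun p => (W p : ℂ) * φ p :=
    H.cpt.mono fun x hx h => hx (by simp [h])
  exact h1.integrable_of_hasCompactSupport h2

/-- Fubini for a coefficient. -/
lemma coef_eq (H : Sl m h a W) (c : ℝ) (j : ℤ) {t : ℝ → ℂ} (ht : Continuous t) :
    ∫ y, xc m c W j y * t y = ∫ p, (W p : ℂ) * (ch (2 * m) c j p.1 * t p.2) := by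
  have hch := continuous_ch (2 * m) c j
  have := H.integrable_test (φ := fun p => ch (2 * m) c j p.1 * t p.2) (by fun_prop)
  rw [Measure.volume_eq_prod] at this ⊢
  rw [integral_prod_symm _ this]
  congr 1; ext y
  rw [xc, co, ← integral_mul_const]
  congr 1; ext x; ring

lemma coef_eq' (H : Sl m h a W) (c : ℝ) (j : ℤ) {t : ℝ → ℂ} (ht : Continuous t) :
    ∫ y, xc m c W j y * t y = ∫ x, ch (2 * m) c j x * ∫ y, (W (x, y) : ℂ) * t y := by
  have hch := continuous_ch (2 * m) c j
  have := H.integrable_test (φ := fun p => ch (2 * m) c j p.1 * t p.2) (by fun_prop)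
  rw [H.coef_eq c j ht]
  rw [Measure.volume_eq_prod] at this ⊢
  rw [integral_prod _ this]
  congr 1; ext x
  rw [← integral_const_mul]
  congr 1; ext y; ring

lemma col_cpt (H : Sl m h a W) (x : ℝ) : HasCompactSupport fun y => (W (x, y) : ℂ) :=
  compactSupport_of_Ioo (a := 0) (b := h) fun y hy => by
    have : W (x, y) = 0 := by
      by_contra h'; exact hy (H.supp x y h').1
    simp [this]

end Sl

variable {m h : ℝ} {a : ℝ → ℝ} {W Wx Wy : ℝ × ℝ → ℝ}

lemma xc_dx (H : Sl m h a W) (Hx : Sl m h a Wx)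
    (hx : ∀ x y, HasDerivAt (fun t => W (t, y)) (Wx (x, y)) x) (c : ℝ) (j : ℤ) (y : ℝ) :
    xc m c Wx j y = 2 * π * I * j / (2 * m : ℝ) * xc m c W j y :=
  co_deriv (2 * m) c (fun x => (hx x y).ofReal_comp) (Hx.slice_cont y)
    (compactSupport_of_Ioo (H.slice_zero y)) (compactSupport_of_Ioo (Hx.slice_zero y)) j

lemma sc_dx (H : Sl m h a W) (Hx : Sl m h a Wx)
    (hx : ∀ x y, HasDerivAt (fun t => W (t, y)) (Wx (x, y)) x) (c : ℝ) (j n : ℤ) :
    ‖sc h (xc m c Wx j) n‖ ^ 2 = (π / m) ^ 2 * ((j : ℝ) ^ 2 * ‖sc h (xc m c W j) n‖ ^ 2) := by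
  have : sc h (xc m c Wx j) n = ((π * j / m : ℝ) : ℂ) * I * sc h (xc m c W j) n := by
    unfold sc
    rw [← integral_const_mul]
    congr 1; ext y
    rw [xc_dx H Hx hx]
    push_cast
    by_cases hm : (m : ℂ) = 0
    · simp [hm]
    · field_simp
  rw [this, norm_mul, norm_mul, Complex.norm_I, Complex.norm_real, Real.norm_eq_abs, mul_one,
    mul_pow, sq_abs]
  ring

lemma cc_dy (H : Sl m h a W) (Hy : Sl m h a Wy)
    (hy : ∀ x y, HasDerivAt (fun t => W (x, t)) (Wy (x, y)) y) (c : ℝ) (j n : ℤ) :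
    ‖cc h (xc m c Wy j) n‖ ^ 2 = (π / h) ^ 2 * ((n : ℝ) ^ 2 * ‖sc h (xc m c W j) n‖ ^ 2) := by
  have cs : Continuous fun y : ℝ => ((Real.sin (π * n * y / h) : ℝ) : ℂ) := by fun_prop
  have cc' : Continuous fun y : ℝ => ((Real.cos (π * n * y / h) : ℝ) : ℂ) := by fun_prop
  have : cc h (xc m c Wy j) n = ((π * n / h : ℝ) : ℂ) * sc h (xc m c W j) n := by
    unfold sc cc
    rw [H.coef_eq' c j cs, Hy.coef_eq' c j cc', ← integral_const_mul]
    congr 1; ext x
    have hW := H.cont
    have hWy := Hy.cont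
    have i1 : Integrable fun y => (W (x, y) : ℂ) * (Real.sin (π * n * y / h) : ℝ) :=
      Continuous.integrable_of_hasCompactSupport (by fun_prop) (H.col_cpt x).mul_right
    have i2 : Integrable fun y => (Wy (x, y) : ℂ) * (Real.cos (π * n * y / h) : ℝ) :=
      Continuous.integrable_of_hasCompactSupport (by fun_prop) (Hy.col_cpt x).mul_right
    have i3 : Integrable fun y => (W (x, y) : ℂ) * (Real.cos (π * n * y / h) : ℝ) :=
      Continuous.integrable_of_hasCompactSupport (by fun_prop) (H.col_cpt x).mul_right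
    have hd : ∀ y, HasDerivAt (fun y : ℝ => Real.cos (π * n * y / h))
        (-Real.sin (π * n * y / h) * (π * n / h)) y := by
      intro y
      have h1 : HasDerivAt (fun y : ℝ => π * n * y / h) (π * n / h) y := by
        have := ((hasDerivAt_id' y).const_mul (π * n)).div_const h
        rw [mul_one] at this; exact this
      exact h1.cos
    have key := integral_eq_zero_of_hasDerivAt_of_integrable
      (f := fun y => (W (x, y) : ℂ) * (Real.cos (π * n * y / h) : ℝ))
      (f' := fun y => (Wy (x, y) : ℂ) * (Real.cos (π * n * y / h) : ℝ)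
        - ((π * n / h : ℝ) : ℂ) * ((W (x, y) : ℂ) * (Real.sin (π * n * y / h) : ℝ)))
      (fun y => ((hy x y).ofReal_comp.mul (hd y).ofReal_comp).congr_deriv (by push_cast; ring))
      (i2.sub (i1.const_mul _)) i3
    rw [integral_sub i2 (i1.const_mul _), integral_const_mul, sub_eq_zero] at key
    rw [key]; ring
  rw [this, norm_mul, Complex.norm_real, Real.norm_eq_abs, mul_pow, sq_abs]
  ring

end Pool.Agent.P.MP_2f6447_an
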