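import Pool.Agent.P.MP_2f6447_an.Defs
import Pool.Agent.P.MP_2f6447_an.Double

/-! Orthonormal frames of the plane and the lower bound for the min-max value. -/

open MeasureTheory Set Real

namespace Pool.Agent.P.MP_2f6447_an

/-- The plane. -/
abbrev E2 := EuclideanSpace ℝ (Fin 2)

/-- An orthonormal pair. -/
structure Fr (e n : E2) : Prop where
  he : ‖e‖ = 1
  hn : ‖n‖ = 1
  hen : inner ℝ e n = 0

/-- Coordinates in a frame. -/
noncomputable def Phi (o e n : E2) (p : ℝ × ℝ) : E2 := o + p.1 • e + p.2 • n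

namespace Fr

variable {e n : E2}

lemma exists_basis (F : Fr e n) : ∃ B : OrthonormalBasis (Fin 2) ℝ E2, B 0 = e ∧ B 1 = n := by
  have ho : Orthonormal ℝ ![e, n] := by
    constructor
    · intro i; fin_cases i
      · exact F.he
      · exact F.hn
    · intro i j hij
      fin_cases i <;> fin_cases j
      · exact absurd rfl hij
      · exact F.hen
      · simpa [real_inner_comm] using F.hen
      · exact absurd rfl hij
  have hc : Fintype.card (Fin 2) = Module.finrank ℝ E2 := by simp
  refine ⟨(basisOfOrthonormalOfCardEqFinrank ho hc).toOrthonormalBasis (by simpa using ho), ?_, ?_⟩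
    <;> simp

lemma decomp (F : Fr e n) (q : E2) : (inner ℝ e q) • e + (inner ℝ n q) • n = q := by
  obtain ⟨B, h0, h1⟩ := F.exists_basis
  have := B.sum_repr' q
  rw [Fin.sum_univ_two, h0, h1] at this
  exact this

lemma norm_dual (F : Fr e n) (L : E2 →L[ℝ] ℝ) : ‖L‖ ^ 2 = L e ^ 2 + L n ^ 2 := by
  obtain ⟨B, h0, h1⟩ := F.exists_basis
  rw [B.norm_dual L, Fin.sum_univ_two, h0, h1]

lemma inner_e (F : Fr e n) (o : E2) (p : ℝ × ℝ) : inner ℝ e (Phi o e n p - o) = p.1 := by
  have : Phi o e n p - o = p.1 • e + p.2 • n := by unfold Phi; abel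
  rw [this, inner_add_right, inner_smul_right, inner_smul_right, F.hen, real_inner_self_eq_norm_sq,
    F.he]
  simp

lemma inner_n (F : Fr e n) (o : E2) (p : ℝ × ℝ) : inner ℝ n (Phi o e n p - o) = p.2 := by
  have : Phi o e n p - o = p.1 • e + p.2 • n := by unfold Phi; abel
  rw [this, inner_add_right, inner_smul_right, inner_smul_right, real_inner_comm, F.hen,
    real_inner_self_eq_norm_sq, F.hn]
  simp

lemma phi_coord (F : Fr e n) (o q : E2) :
    Phi o e n (inner ℝ e (q - o), inner ℝ n (q - o)) = q := by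
  unfold Phi
  rw [add_assoc, F.decomp]; abel

/-- Coordinates as a homeomorphism. -/
noncomputable def homeo (F : Fr e n) (o : E2) : ℝ × ℝ ≃ₜ E2 where
  toFun := Phi o e n
  invFun q := (inner ℝ e (q - o), inner ℝ n (q - o))
  left_inv p := Prod.ext (F.inner_e o p) (F.inner_n o p)
  right_inv q := F.phi_coord o q
  continuous_toFun := by unfold Phi; fun_prop
  continuous_invFun := by fun_prop

lemma measurePreserving (F : Fr e n) (o : E2) : MeasurePreserving (Phi o e n) := by
  obtain ⟨B, h0, h1⟩ := F.exists_basis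
  have h := (measurePreserving_add_left (volume : Measure E2) o).comp
    (B.measurePreserving_repr_symm.comp ((PiLp.volume_preserving_toLp (Fin 2)).comp
      (volume_preserving_finTwoArrow ℝ).symm))
  have e' : Phi o e n = (fun x => o + x) ∘ B.repr.symm ∘ (@WithLp.toLp 2 (Fin 2 → ℝ)) ∘
      (MeasurableEquiv.finTwoArrow (α := ℝ)).symm := by
    funext p
    simp only [Function.comp_apply, Phi]
    rw [← B.sum_repr_symm, Fin.sum_univ_two, h0, h1, add_assoc]
    rfl
  rw [e']; exact h

lemma integral_phi (F : Fr e n) (o : E2) (g : E2 → ℝ) : ∫ p, g (Phi o e n p) = ∫ q, g q :=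
  (F.measurePreserving o).integral_comp (F.homeo o).measurableEmbedding g

end Fr

lemma hasDerivAt_phi_x (o e n : E2) {u : E2 → ℝ} (hu : Differentiable ℝ u) (x y : ℝ) :
    HasDerivAt (fun t => u (Phi o e n (t, y))) (fderiv ℝ u (Phi o e n (x, y)) e) x := by
  have h1 : HasDerivAt (fun t : ℝ => Phi o e n (t, y)) e x := by
    have := (((hasDerivAt_id' x).smul_const e).const_add o).add_const (y • n)
    rw [one_smul] at this
    exact this
  exact (hu _).hasFDerivAt.comp_hasDerivAt x h1

lemma hasDerivAt_phi_y (o e n : E2) {u : E2 → ℝ} (hu : Differentiable ℝ u) (x y : ℝ) :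
    HasDerivAt (fun t => u (Phi o e n (x, t))) (fderiv ℝ u (Phi o e n (x, y)) n) y := by
  have h1 : HasDerivAt (fun t : ℝ => Phi o e n (x, t)) n y := by
    have := ((hasDerivAt_id' y).smul_const n).const_add (o + x • e)
    rw [one_smul] at this
    exact this
  exact (hu _).hasFDerivAt.comp_hasDerivAt y h1

/-- The set in the min-max formula. -/
def RS (Ω : Set E2) : Set ℝ :=
  {r : ℝ | ∃ f g : E2 → ℝ,
    ContDiff ℝ 1 f ∧ ContDiff ℝ 1 g ∧ HasCompactSupport f ∧ HasCompactSupport g ∧
    tsupport f ⊆ Ω ∧ tsupport g ⊆ Ω ∧ LinearIndependent ℝ ![f, g] ∧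
    ∀ a b : ℝ, (∫ x, ‖fderiv ℝ (fun y => a * f y + b * g y) x‖ ^ 2) ≤
      r * ∫ x, (a * f x + b * g x) ^ 2}

lemma lam2_eq (Ω : Set E2) : lam2 Ω = sInf (RS Ω) := rfl

lemma RS_mono {Ω Ω' : Set E2} (h : Ω ⊆ Ω') : RS Ω ⊆ RS Ω' := by
  rintro r ⟨f, g, h1, h2, h3, h4, h5, h6, h7, h8⟩
  exact ⟨f, g, h1, h2, h3, h4, h5.trans h, h6.trans h, h7, h8⟩

/-- One linear constraint gives a lower bound for the min-max set. -/
theorem le_of_mem_RS {o e n : E2} (F : Fr e n) {Ω : Set E2} {h : ℝ} {l r : ℝ → ℝ}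
    (hΩ : ∀ x y, Phi o e n (x, y) ∈ Ω → y ∈ Ioo 0 h ∧ x ∈ Ioo (l y) (r y))
    {ψ : ℝ × ℝ → ℝ} (hψ : Continuous ψ) {L : ℝ}
    (hL : ∀ U Ux Uy : ℝ × ℝ → ℝ, Bt h l r U → Bt h l r Ux →
      Bt h l r Uy → (∀ x y, HasDerivAt (fun t => U (t, y)) (Ux (x, y)) x) →
      (∀ x y, HasDerivAt (fun t => U (x, t)) (Uy (x, y)) y) → ∫ p, U p * ψ p = 0 →
      L * ∫ p, U p ^ 2 ≤ (∫ p, Ux p ^ 2) + ∫ p, Uy p ^ 2) {ρ : ℝ} (hρ : ρ ∈ RS Ω) : L ≤ ρ := by
  obtain ⟨f, g, cf, cg, kf, kg, sf, sg, li, ray⟩ := hρ
  have cP : Continuous (Phi o e n) := (F.homeo o).continuous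
  have int : ∀ {u : E2 → ℝ}, Continuous u → HasCompactSupport u →
      Integrable fun p => u (Phi o e n p) * ψ p := fun hu hk =>
    Continuous.integrable_of_hasCompactSupport (by fun_prop)
      (hk.comp_homeomorph (F.homeo o)).mul_right
  set Lf := ∫ p, f (Phi o e n p) * ψ p with hLf
  set Lg := ∫ p, g (Phi o e n p) * ψ p with hLg
  obtain ⟨a, b, hab, h0⟩ : ∃ a b : ℝ, ¬(a = 0 ∧ b = 0) ∧ a * Lf + b * Lg = 0 := by
    by_cases h : Lf = 0
    · exact ⟨1, 0, by simp, by simp [h]⟩
    · exact ⟨Lg, -Lf, fun h' => h (by linarith [h'.2]), by ring⟩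
  set u : E2 → ℝ := fun y => a * f y + b * g y with hu
  have cu : ContDiff ℝ 1 u := (contDiff_const.mul cf).add (contDiff_const.mul cg)
  have ku : HasCompactSupport u := kf.mul_left.add kg.mul_left
  have su : tsupport u ⊆ Ω := by
    refine (tsupport_add _ _).trans (union_subset ?_ ?_)
    · exact (tsupport_mul_subset_right).trans sf
    · exact (tsupport_mul_subset_right).trans sg
  have du : Differentiable ℝ u := cu.differentiable one_ne_zero
  have cd : Continuous (fderiv ℝ u) := cu.continuous_fderiv one_ne_zero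
  have bt : ∀ w : E2, Bt h l r fun p => fderiv ℝ u (Phi o e n p) w := fun w =>
    { cont := by fun_prop
      cpt := (ku.fderiv_apply ℝ w).comp_homeomorph (F.homeo o)
      supp := fun x y hxy => hΩ x y (su (support_fderiv_subset ℝ (f := u) fun h' =>
        hxy (by rw [h']; rfl))) }
  have b0 : Bt h l r fun p => u (Phi o e n p) :=
    { cont := cu.continuous.comp cP
      cpt := ku.comp_homeomorph (F.homeo o)
      supp := fun x y hxy => hΩ x y (su (subset_tsupport _ hxy)) }
  have key := hL _ _ _ b0 (bt e) (bt n) (hasDerivAt_phi_x o e n du) (hasDerivAt_phi_y o e n du)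
    (by
      have : ∀ p, u (Phi o e n p) * ψ p =
          a * (f (Phi o e n p) * ψ p) + b * (g (Phi o e n p) * ψ p) := fun p => by
        simp only [hu]; ring
      simp_rw [this]
      rw [integral_add ((int cf.continuous kf).const_mul a) ((int cg.continuous kg).const_mul b),
        integral_const_mul, integral_const_mul]
      exact h0)
  rw [← integral_add (bt e).sq_integrable (bt n).sq_integrable] at key
  simp_rw [← F.norm_dual] at key
  rw [F.integral_phi o (fun q => u q ^ 2), F.integral_phi o (fun q => ‖fderiv ℝ u q‖ ^ 2)] at key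
  have pos : 0 < ∫ q, u q ^ 2 := by
    have hne : u ≠ 0 := by
      intro h'
      apply hab
      apply LinearIndependent.pair_iff.1 li a b
      funext y
      simpa [hu] using congrFun h' y
    obtain ⟨q, hq⟩ := Function.ne_iff.1 hne
    have cu' := cu.continuous
    exact Continuous.integral_pos_of_hasCompactSupport_nonneg_nonzero (x := q) (by fun_prop)
      (ku.mono fun x hx h => hx (by simp [h])) (fun x => sq_nonneg _) (pow_ne_zero 2 hq)
  have := key.trans (ray a b)
  exact le_of_mul_le_mul_right this pos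

end Pool.Agent.P.MP_2f6447_an
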