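import Pool.Agent.P.MP_2f6447_an.Core

/-! A uniform gap in the energy inequality when the critical modes do not vanish on the cut. -/

open MeasureTheory Set Complex Real

namespace Pool.Agent.P.MP_2f6447_an

lemma normsq_le_two (u v : ℂ) : ‖u‖ ^ 2 ≤ 2 * ‖u + v‖ ^ 2 + 2 * ‖v‖ ^ 2 := by
  have h : ‖u‖ ≤ ‖u + v‖ + ‖v‖ := by
    have := norm_sub_le (u + v) v
    simpa using this
  have h2 : ‖u‖ ^ 2 ≤ (‖u + v‖ + ‖v‖) ^ 2 := by gcongr
  nlinarith [sq_nonneg (‖u + v‖ - ‖v‖)]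

lemma two_modes {h : ℝ} (hh : 0 < h) (C0 C2 : ℂ) {σ : ℝ → ℝ} (hσ : Continuous σ) :
    let J := ∫ y in (0 : ℝ)..h, ‖C0 * (Real.sin (π * (2 : ℤ) * y / h) : ℝ) +
        C2 * (Real.sin (π * (1 : ℤ) * y / h) : ℝ) * (2 * I * (Real.sin (σ y) : ℝ))‖ ^ 2
    ‖C0‖ ^ 2 * (h / 2) ≤ 2 * J + 8 * ‖C2‖ ^ 2 * h ∧
    4 * ‖C2‖ ^ 2 * (∫ y in (0 : ℝ)..h, Real.sin (π * (1 : ℤ) * y / h) ^ 2 * Real.sin (σ y) ^ 2)
      ≤ 2 * J + ‖C0‖ ^ 2 * h := by
  intro J
  have cJ : Continuous fun y : ℝ => ‖C0 * (Real.sin (π * (2 : ℤ) * y / h) : ℝ) +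
        C2 * (Real.sin (π * (1 : ℤ) * y / h) : ℝ) * (2 * I * (Real.sin (σ y) : ℝ))‖ ^ 2 := by
    fun_prop
  have n0 : ∀ y : ℝ, ‖C0 * (Real.sin (π * (2 : ℤ) * y / h) : ℝ)‖ ^ 2 =
      ‖C0‖ ^ 2 * Real.sin (π * (2 : ℤ) * y / h) ^ 2 := by
    intro y; rw [norm_mul, mul_pow, Complex.norm_real, Real.norm_eq_abs, sq_abs]
  have n2 : ∀ y : ℝ, ‖C2 * (Real.sin (π * (1 : ℤ) * y / h) : ℝ) *
      (2 * I * (Real.sin (σ y) : ℝ))‖ ^ 2 =
      4 * ‖C2‖ ^ 2 * (Real.sin (π * (1 : ℤ) * y / h) ^ 2 * Real.sin (σ y) ^ 2) := by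
    intro y
    simp only [norm_mul, mul_pow, Complex.norm_real, Real.norm_eq_abs, sq_abs, Complex.norm_I,
      Complex.norm_ofNat]
    ring
  have s2 := integral_sin_sq_mode hh (k := 2) (by norm_num)
  constructor
  · have : ∫ y in (0 : ℝ)..h, ‖C0‖ ^ 2 * Real.sin (π * (2 : ℤ) * y / h) ^ 2 ≤
        ∫ y in (0 : ℝ)..h, (2 * ‖C0 * (Real.sin (π * (2 : ℤ) * y / h) : ℝ) +
        C2 * (Real.sin (π * (1 : ℤ) * y / h) : ℝ) * (2 * I * (Real.sin (σ y) : ℝ))‖ ^ 2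
          + 8 * ‖C2‖ ^ 2) := by
      apply intervalIntegral.integral_mono_on hh.le
      · exact Continuous.intervalIntegrable (by fun_prop) _ _
      · exact Continuous.intervalIntegrable (by fun_prop) _ _
      intro y _
      rw [← n0]
      refine (normsq_le_two _ _).trans (add_le_add le_rfl ?_)
      rw [n2]
      have h1 := Real.sin_sq_le_one (π * (1 : ℤ) * y / h)
      have h2 := Real.sin_sq_le_one (σ y)
      have h3 : Real.sin (π * (1 : ℤ) * y / h) ^ 2 * Real.sin (σ y) ^ 2 ≤ 1 :=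
        mul_le_one₀ h1 (sq_nonneg _) h2
      nlinarith [sq_nonneg ‖C2‖]
    rw [intervalIntegral.integral_const_mul, s2, intervalIntegral.integral_add
      ((cJ.intervalIntegrable _ _).const_mul 2) intervalIntegrable_const,
      intervalIntegral.integral_const_mul, intervalIntegral.integral_const] at this
    simp only [sub_zero, smul_eq_mul] at this
    simp only [J]
    linarith
  · have : ∫ y in (0 : ℝ)..h, 4 * ‖C2‖ ^ 2 *
        (Real.sin (π * (1 : ℤ) * y / h) ^ 2 * Real.sin (σ y) ^ 2) ≤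
        ∫ y in (0 : ℝ)..h, (2 * ‖C0 * (Real.sin (π * (2 : ℤ) * y / h) : ℝ) +
        C2 * (Real.sin (π * (1 : ℤ) * y / h) : ℝ) * (2 * I * (Real.sin (σ y) : ℝ))‖ ^ 2
          + 2 * ‖C0‖ ^ 2 * Real.sin (π * (2 : ℤ) * y / h) ^ 2) := by
      apply intervalIntegral.integral_mono_on hh.le
      · exact Continuous.intervalIntegrable (by fun_prop) _ _
      · exact Continuous.intervalIntegrable (by fun_prop) _ _
      intro y _
      rw [← n2, mul_assoc 2 (‖C0‖ ^ 2), ← n0, add_comm (C0 * _)]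
      exact normsq_le_two _ _
    rw [intervalIntegral.integral_const_mul, intervalIntegral.integral_add
      ((cJ.intervalIntegrable _ _).const_mul 2) (Continuous.intervalIntegrable (by fun_prop) _ _),
      intervalIntegral.integral_const_mul, intervalIntegral.integral_const_mul, s2] at this
    simp only [J]
    linarith

theorem gap {m h : ℝ} (c : ℝ) (hh : 0 < h) (hm : h ≤ m) {x0 : ℝ → ℝ} (hx0 : Continuous x0)
    (hI : m = 2 * h → 0 < ∫ y in (0 : ℝ)..h, Real.sin (π * (1 : ℤ) * y / h) ^ 2 *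
      Real.sin (π * (2 : ℤ) * (x0 y - c) / m) ^ 2) :
    ∃ K : ℝ, 0 < K ∧ ∀ (a : ℝ → ℝ) (W Wx Wy : ℝ × ℝ → ℝ), Adm m h c a W Wx Wy →
      (∀ y ∈ Ioo 0 h, x0 y ∈ Icc (a y) (a y + 2 * m) ∧ W (x0 y, y) = 0) →
      ∫ p, W p ^ 2 ≤
        K * ((∫ p, Wx p ^ 2) + (∫ p, Wy p ^ 2) - 4 * π ^ 2 / (m * h) * ∫ p, W p ^ 2) := by
  have hm0 : 0 < m := by linarith
  have hp := Real.pi_pos
  have hK1 := K1_nonneg
  set γ := (π / m) ^ 2 / 2 with hγ
  have hγ0 : 0 < γ := by positivity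
  set κ0 := 4 * (π / h) ^ 2 - 4 * π ^ 2 / (m * h) with hκ0
  set κ2 := 4 * (π / m) ^ 2 + (π / h) ^ 2 - 4 * π ^ 2 / (m * h) with hκ2
  set Iv := ∫ y in (0 : ℝ)..h, Real.sin (π * (1 : ℤ) * y / h) ^ 2 *
      Real.sin (π * (2 : ℤ) * (x0 y - c) / m) ^ 2 with hIv
  set Q := h * (K1 + 3) / γ with hQ
  have hQ0 : 0 < Q := by positivity
  have e0 : κ0 = 4 * π ^ 2 * (m - h) / (m * h ^ 2) := by simp only [hκ0]; field_simp
  have e2 : κ2 = π ^ 2 * (2 * h - m) ^ 2 / (m * h) ^ 2 := by simp only [hκ2]; field_simp; ring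
  have abs : ∃ Ka Kb : ℝ, 0 ≤ Ka ∧ 0 ≤ Kb ∧ ∀ t α β J : ℝ, 0 ≤ t → J ≤ Q * t → κ0 * α ≤ t →
      κ2 * β ≤ t → α * (h / 2) ≤ 2 * J + 8 * β * h → 4 * β * Iv ≤ 2 * J + α * h →
      α ≤ Ka * t ∧ β ≤ Kb * t := by
    by_cases h2 : m = 2 * h
    · have hIv0 := hI h2
      have k0 : 0 < κ0 := by
        rw [e0]; apply div_pos (mul_pos (by positivity) (by linarith)) (by positivity)
      refine ⟨1 / κ0, (2 * Q + 1 / κ0 * h) / (4 * Iv), by positivity, by positivity, ?_⟩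
      intro t α β J ht hJ ha _ _ hb
      have h1 : α ≤ 1 / κ0 * t := by
        rw [one_div, inv_mul_eq_div, le_div_iff₀ k0]; linarith
      refine ⟨h1, ?_⟩
      rw [div_mul_eq_mul_div, le_div_iff₀ (by positivity)]
      nlinarith
    · have k2 : 0 < κ2 := by
        rw [e2]
        have : 2 * h - m ≠ 0 := fun h' => h2 (by linarith)
        positivity
      rcases hm.eq_or_lt with h3 | h3
      · refine ⟨(2 * Q + 8 * (1 / κ2) * h) / (h / 2), 1 / κ2, by positivity, by positivity, ?_⟩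
        intro t α β J ht hJ _ hb ha _
        have h1 : β ≤ 1 / κ2 * t := by
          rw [one_div, inv_mul_eq_div, le_div_iff₀ k2]; linarith
        refine ⟨?_, h1⟩
        rw [div_mul_eq_mul_div, le_div_iff₀ (by positivity)]
        nlinarith
      · have k0 : 0 < κ0 := by
          rw [e0]; apply div_pos (mul_pos (by positivity) (by linarith)) (by positivity)
        refine ⟨1 / κ0, 1 / κ2, by positivity, by positivity, ?_⟩
        intro t α β J ht _ ha hb _ _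
        constructor
        · rw [one_div, inv_mul_eq_div, le_div_iff₀ k0]; linarith
        · rw [one_div, inv_mul_eq_div, le_div_iff₀ k2]; linarith
  obtain ⟨Ka, Kb, hKa, hKb, habs⟩ := abs
  refine ⟨1 / γ + 2 * Ka + 4 * Kb, by positivity, fun a W Wx Wy H hz => ?_⟩
  obtain ⟨b0, b1, b2, b3, b4, b5, b6, b7⟩ := H.bounds hh hm
  have tr := H.trace hh hm0 hx0 hz
  obtain ⟨m1, m2⟩ := two_modes hh (sc h (xc m c W 0) 2) (sc h (xc m c W 2) 1)
    (σ := fun y => π * (2 : ℤ) * (x0 y - c) / m) (by fun_prop)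
  simp only at b0 b1 b2 b3 b4 b5 b6 b7 m1 m2
  set e := (∫ p, Wx p ^ 2) + (∫ p, Wy p ^ 2) - 4 * π ^ 2 / (m * h) * ∫ p, W p ^ 2 with he
  set t := h * (2 * m) * e with ht
  set α := ‖sc h (xc m c W 0) 2‖ ^ 2
  set β := ‖sc h (xc m c W 2) 1‖ ^ 2
  set J := ∫ y in (0 : ℝ)..h, ‖sc h (xc m c W 0) 2 * (Real.sin (π * (2 : ℤ) * y / h) : ℝ) +
        sc h (xc m c W 2) 1 * (Real.sin (π * (1 : ℤ) * y / h) : ℝ) *
          (2 * I * (Real.sin (π * (2 : ℤ) * (x0 y - c) / m) : ℝ))‖ ^ 2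
  have d : ∀ V : ℝ, γ * V ≤ t → V ≤ t / γ := fun V hV => by
    rw [le_div_iff₀ hγ0]; linarith
  have hJ : J ≤ Q * t := by
    refine tr.trans ?_
    have f2 := mul_le_mul_of_nonneg_left (d _ b2) hK1
    have f3 := d _ b3
    have f4 := d _ b4
    have f5 := d _ b5
    have : Q * t = h * (K1 * (t / γ) + t / γ + t / γ + t / γ) := by
      simp only [hQ]; field_simp; ring
    rw [this]
    gcongr
  obtain ⟨ha, hb⟩ := habs t α β J b0 hJ b6 b7 m1 m2
  have f1 := d _ b1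
  have h2 : 0 < h * (2 * m) := by positivity
  have : h * (2 * m) * ∫ p, W p ^ 2 ≤ h * (2 * m) * ((1 / γ + 2 * Ka + 4 * Kb) * e) := by
    have e3 : h * (2 * m) * ((1 / γ + 2 * Ka + 4 * Kb) * e) =
      t / γ + 2 * (Ka * t) + 4 * (Kb * t) := by simp only [ht]; field_simp
    rw [e3]; nlinarith
  exact le_of_mul_le_mul_left this h2

end Pool.Agent.P.MP_2f6447_an
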