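import Pool.Agent.P.MP_2f6447_an.Trap

/-! From vectors to frames. -/

open MeasureTheory Set Real

namespace Pool.Agent.P.MP_2f6447_an

lemma exists_frame {e v : E2} (he : ‖e‖ = 1) (li : LinearIndependent ℝ ![e, v]) :
    ∃ n : E2, Fr e n ∧ 0 < ‖v - (inner ℝ e v) • e‖ ∧
      v = (inner ℝ e v) • e + ‖v - (inner ℝ e v) • e‖ • n := by
  have hw : v - (inner ℝ e v) • e ≠ 0 := by
    intro h
    have := LinearIndependent.pair_iff.1 li (-(inner ℝ e v)) 1 (by
      rw [one_smul, neg_smul, ← h]; abel)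
    exact one_ne_zero this.2
  have hp : 0 < ‖v - (inner ℝ e v) • e‖ := norm_pos_iff.2 hw
  refine ⟨‖v - (inner ℝ e v) • e‖⁻¹ • (v - (inner ℝ e v) • e), ⟨he, ?_, ?_⟩, hp, ?_⟩
  · rw [norm_smul, norm_inv, norm_norm, inv_mul_cancel₀ hp.ne']
  · rw [inner_smul_right, inner_sub_right, inner_smul_right, real_inner_self_eq_norm_sq, he]
    simp
  · rw [smul_smul, mul_inv_cancel₀ hp.ne', one_smul]; abel

lemma parallelogram_eq (o e v : E2) {a : ℝ} (ha : 0 < a) :
    parallelogram o (a • e) v = trapezoid o e v a a := by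
  ext p
  constructor
  · rintro ⟨s, hs, t, ht, rfl⟩
    refine ⟨t, ht, s * a, ⟨mul_pos hs.1 ha, by nlinarith [hs.2]⟩, by rw [smul_smul]⟩
  · rintro ⟨t, ht, s, hs, rfl⟩
    refine ⟨s / a, ⟨div_pos hs.1 ha, (div_lt_one ha).2 (by linarith [hs.2])⟩, t, ht, ?_⟩
    rw [smul_smul, div_mul_cancel₀ _ ha.ne']

lemma parallelogram_comm (o u v : E2) : parallelogram o u v = parallelogram o v u := by
  ext p
  constructor <;> rintro ⟨s, hs, t, ht, rfl⟩ <;> exact ⟨t, ht, s, hs, by abel⟩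

lemma norm_perp_le {e : E2} (he : ‖e‖ = 1) (v : E2) : ‖v - (inner ℝ e v) • e‖ ≤ ‖v‖ := by
  apply (pow_le_pow_iff_left₀ (norm_nonneg _) (norm_nonneg _) two_ne_zero).1
  rw [norm_sub_sq_real, inner_smul_right, norm_smul, he, real_inner_comm e v]
  simp only [Real.norm_eq_abs, mul_one, sq_abs]
  nlinarith [sq_nonneg (inner ℝ e v)]

lemma wide_of_le {o u v : E2} (li : LinearIndependent ℝ ![u, v]) (h : ‖v‖ ≤ ‖u‖) :
    IsWideTrapezoid (parallelogram o u v) := by
  have hu : u ≠ 0 := by simpa using li.ne_zero 0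
  have hp : 0 < ‖u‖ := norm_pos_iff.2 hu
  have he : ‖‖u‖⁻¹ • u‖ = 1 := by rw [norm_smul, norm_inv, norm_norm, inv_mul_cancel₀ hp.ne']
  refine ⟨o, ‖u‖⁻¹ • u, v, ‖u‖, ‖u‖, he, ?_, hp.le, hp.le, ?_, ?_⟩
  · rw [LinearIndependent.pair_iff] at li ⊢
    intro s t hst
    rw [smul_smul] at hst
    obtain ⟨h1, h2⟩ := li _ _ hst
    exact ⟨by simpa [hp.ne'] using h1, h2⟩
  · linarith [norm_perp_le he v]
  · rw [← parallelogram_eq o _ v hp, smul_smul, mul_inv_cancel₀ hp.ne', one_smul]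

lemma IsParallelogram.wide {T : Set E2} (h : IsParallelogram T) : IsWideTrapezoid T := by
  obtain ⟨o, u, v, li, rfl⟩ := h
  rcases le_total ‖v‖ ‖u‖ with h | h
  · exact wide_of_le li h
  · rw [parallelogram_comm]
    exact wide_of_le (LinearIndependent.pair_symm_iff.1 li) h

lemma rect_value {T : Set E2} (h : IsOneTwoRectangle T) :
    lam2 T * (volume T).toReal ≤ 4 * π ^ 2 := by
  obtain ⟨o, u, v, hv, huv, hn, rfl⟩ := h
  have hp : 0 < ‖v‖ := norm_pos_iff.2 hv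
  have hu : 0 < ‖u‖ := by linarith
  have F : Fr (‖u‖⁻¹ • u) (‖v‖⁻¹ • v) :=
    ⟨by rw [norm_smul, norm_inv, norm_norm, inv_mul_cancel₀ hu.ne'],
      by rw [norm_smul, norm_inv, norm_norm, inv_mul_cancel₀ hp.ne'],
      by rw [inner_smul_left, inner_smul_right, huv]; simp⟩
  have e : parallelogram o u v = trapezoid o (‖u‖⁻¹ • u)
      ((0 : ℝ) • (‖u‖⁻¹ • u) + ‖v‖ • (‖v‖⁻¹ • v)) (2 * ‖v‖) (2 * ‖v‖) := by
    rw [← parallelogram_eq o _ _ (by linarith), ← hn, smul_smul, smul_smul ‖v‖,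
      mul_inv_cancel₀ hu.ne', mul_inv_cancel₀ hp.ne', one_smul, one_smul, zero_smul, zero_add]
  rw [e, volume_trap F hp (by linarith) (by linarith)]
  calc _ ≤ 2 * π ^ 2 / ‖v‖ ^ 2 * ((2 * ‖v‖ + 2 * ‖v‖) / 2 * ‖v‖) := by
        gcongr; exact rect_upper F hp
    _ = _ := by field_simp; ring

theorem wide_main {T : Set E2} (hT : IsWideTrapezoid T) :
    4 * π ^ 2 ≤ lam2 T * (volume T).toReal ∧
      (lam2 T * (volume T).toReal = 4 * π ^ 2 ↔ IsOneTwoRectangle T) := by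
  obtain ⟨o, e, v, a, b, he, li, ha, hb, hm, rfl⟩ := hT
  obtain ⟨n, F, hh, hv⟩ := exists_frame he li
  set k := inner ℝ e v with hk
  set h := ‖v - k • e‖ with hdef
  have hA : 0 < (a + b) / 2 * h := mul_pos (by linarith) hh
  have vol : (volume (trapezoid o e v a b)).toReal = (a + b) / 2 * h := by
    rw [hv]; exact volume_trap F hh ha hb
  have low : 4 * π ^ 2 ≤ lam2 (trapezoid o e v a b) * (volume (trapezoid o e v a b)).toReal := by
    rw [vol, ← div_le_iff₀ hA, hv, lam2_eq]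
    exact le_csInf (RS_trap_nonempty F hh (by linarith)) (trap_lower F hh ha hb hm)
  refine ⟨low, fun heq => ?_, fun hR => le_antisymm (rect_value hR) low⟩
  by_contra hR
  have hne : ¬((a + b) / 2 = 2 * h ∧ k = 0 ∧ a = b) := by
    rintro ⟨h1, h2, h3⟩
    apply hR
    subst h3
    have hvn : ‖v‖ = h := by rw [hdef, h2, zero_smul, sub_zero]
    have ha0 : 0 < a := by linarith
    refine ⟨o, a • e, v, norm_pos_iff.1 (by linarith), ?_, ?_, (parallelogram_eq o e v ha0).symm⟩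
    · rw [inner_smul_left, ← hk, h2, mul_zero]
    · rw [norm_smul, he, hvn, Real.norm_eq_abs, abs_of_pos ha0]; linarith
  have := trap_strict (o := o) F hh ha hb hm hne
  rw [← hv, div_lt_iff₀ hA, ← vol] at this
  exact this.ne' heq

end Pool.Agent.P.MP_2f6447_an
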