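import Pool.Agent.P.MP_2f6447_an.Fourier3

/-! The comparison of mode sums. -/

open MeasureTheory Set Complex Real

namespace Pool.Agent.P.MP_2f6447_an

/-- The critical modes. -/
def Crit (p : ℤ × ℤ) : Prop :=
  (p.1 = 0 ∧ (p.2 = 2 ∨ p.2 = -2)) ∨ ((p.1 = 2 ∨ p.1 = -2) ∧ (p.2 = 1 ∨ p.2 = -1))

instance : DecidablePred Crit := fun p => by unfold Crit; infer_instance

/-- Tail weight. -/
noncomputable def tau (p : ℤ × ℤ) : ℝ := if Crit p then 0 else 1 + (p.1 : ℝ) ^ 2

lemma w_lower {u v L : ℝ} (hu : 0 < u) (huv : u ≤ v) (h1 : L ≤ 4 * v) (h2 : L ≤ 4 * u + v)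
    (p : ℤ × ℤ) (hn : p.2 ≠ 0) (hl : ¬((p.2 = 1 ∨ p.2 = -1) ∧ (p.1 = 0 ∨ p.1 = 1 ∨ p.1 = -1))) :
    u / 2 * tau p ≤ u * (p.1 : ℝ) ^ 2 + v * (p.2 : ℝ) ^ 2 - L := by
  obtain ⟨j, n⟩ := p
  simp only at hn hl ⊢
  have hj0 : (0 : ℝ) ≤ (j : ℝ) ^ 2 := by positivity
  have hv : 0 < v := by linarith
  by_cases hn1 : n = 1 ∨ n = -1
  · have hn2 : (n : ℝ) ^ 2 = 1 := by rcases hn1 with h | h <;> subst h <;> norm_num
    by_cases hj2 : j = 2 ∨ j = -2
    · have : (j : ℝ) ^ 2 = 4 := by rcases hj2 with h | h <;> subst h <;> norm_num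
      have ht : tau (j, n) = 0 := if_pos (Or.inr ⟨hj2, hn1⟩)
      rw [ht, this, hn2]; linarith
    · have h9 : (9 : ℤ) ≤ j ^ 2 := by
        have : 3 ≤ j ∨ j ≤ -3 := by omega
        rcases this with h | h <;> nlinarith
      have h9' : (9 : ℝ) ≤ (j : ℝ) ^ 2 := by exact_mod_cast h9
      have ht : tau (j, n) ≤ 1 + (j : ℝ) ^ 2 := by
        unfold tau; split_ifs
        · positivity
        · exact le_rfl
      rw [hn2]
      nlinarith
  · by_cases hn2 : n = 2 ∨ n = -2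
    · have hn4 : (n : ℝ) ^ 2 = 4 := by rcases hn2 with h | h <;> subst h <;> norm_num
      by_cases hj : j = 0
      · have ht : tau (j, n) = 0 := if_pos (Or.inl ⟨hj, hn2⟩)
        rw [ht, hn4]; nlinarith
      · have h1' : (1 : ℤ) ≤ j ^ 2 := by
          have : 1 ≤ j ∨ j ≤ -1 := by omega
          rcases this with h | h <;> nlinarith
        have h1'' : (1 : ℝ) ≤ (j : ℝ) ^ 2 := by exact_mod_cast h1'
        have ht : tau (j, n) ≤ 1 + (j : ℝ) ^ 2 := by
          unfold tau; split_ifs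
          · positivity
          · exact le_rfl
        rw [hn4]; nlinarith
    · have h9 : (9 : ℤ) ≤ n ^ 2 := by
        have : 3 ≤ n ∨ n ≤ -3 := by omega
        rcases this with h | h <;> nlinarith
      have h9' : (9 : ℝ) ≤ (n : ℝ) ^ 2 := by exact_mod_cast h9
      have ht : tau (j, n) ≤ 1 + (j : ℝ) ^ 2 := by
        unfold tau; split_ifs
        · positivity
        · exact le_rfl
      nlinarith

lemma tau_nonneg (p : ℤ × ℤ) : 0 ≤ tau p := by
  unfold tau; split_ifs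
  · exact le_rfl
  · positivity

lemma cmp {A w k : ℤ × ℤ → ℝ} {T V γ : ℝ} (hA : ∀ p, 0 ≤ A p)
    (hT : HasSum (fun p => w p * A p) T) (hV : HasSum (fun p => k p * A p) V)
    (h : ∀ p, A p ≠ 0 → γ * k p ≤ w p) : γ * V ≤ T := by
  refine hasSum_le (fun p => ?_) (hV.mul_left γ) hT
  by_cases hp : A p = 0
  · simp [hp]
  · rw [← mul_assoc]; exact mul_le_mul_of_nonneg_right (h p hp) (hA p)

lemma hasSum_row {A : ℤ × ℤ → ℝ} (hA : ∀ p, 0 ≤ A p) (j : ℤ) {r : ℝ}
    (hr : HasSum (fun n => A (j, n)) r) :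
    HasSum (fun p : ℤ × ℤ => (if p.1 = j then 1 else 0) * A p) r := by
  refine hasSum_prod_nonneg (g := fun i => if i = j then r else 0) (fun p => ?_) (fun i => ?_)
    (hasSum_ite_eq j r)
  · split_ifs <;> simp [hA p]
  · by_cases hi : i = j
    · subst hi; simpa using hr
    · simp [hi]

lemma hasSum_pt (A : ℤ × ℤ → ℝ) (q : ℤ × ℤ) :
    HasSum (fun p : ℤ × ℤ => (if p = q then 1 else 0) * A p) (A q) := by
  refine hasSum_of_eq (hasSum_ite_eq q (A q)) fun p => ?_
  by_cases hp : p = q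
  · subst hp; simp
  · simp [hp]

/-- All the comparisons at once. -/
lemma seq_bounds {u v L : ℝ} (hu : 0 < u) (huv : u ≤ v) (h1 : L ≤ 4 * v) (h2 : L ≤ 4 * u + v)
    {A : ℤ × ℤ → ℝ} (hA : ∀ p, 0 ≤ A p) (z0 : ∀ j, A (j, 0) = 0)
    (zn : ∀ j n, A (j, -n) = A (j, n)) (z1 : A (0, 1) = 0) (z2 : A (1, 1) = 0)
    (z3 : A (-1, 1) = 0) (z4 : A (-2, 1) = A (2, 1))
    {N X Y : ℝ} (hN : HasSum A N) (hX : HasSum (fun p => (p.1 : ℝ) ^ 2 * A p) X)
    (hY : HasSum (fun p => (p.2 : ℝ) ^ 2 * A p) Y) {r : ℤ → ℝ}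
    (hr : ∀ j, HasSum (fun n => A (j, n)) (r j)) :
    0 ≤ u * X + v * Y - L * N ∧
    u / 2 * (N - 2 * A (0, 2) - 4 * A (2, 1)) ≤ u * X + v * Y - L * N ∧
    u / 2 * (X - 4 * r 2 - 4 * r (-2)) ≤ u * X + v * Y - L * N ∧
    u / 2 * (r 0 - 2 * A (0, 2)) ≤ u * X + v * Y - L * N ∧
    u / 2 * (r 2 - 2 * A (2, 1)) ≤ u * X + v * Y - L * N ∧
    u / 2 * (r (-2) - 2 * A (2, 1)) ≤ u * X + v * Y - L * N ∧
    (4 * v - L) * A (0, 2) ≤ u * X + v * Y - L * N ∧
    (4 * u + v - L) * A (2, 1) ≤ u * X + v * Y - L * N := by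
  set w : ℤ × ℤ → ℝ := fun p => u * (p.1 : ℝ) ^ 2 + v * (p.2 : ℝ) ^ 2 - L with hw
  have hT : HasSum (fun p => w p * A p) (u * X + v * Y - L * N) :=
    hasSum_of_eq (((hX.mul_left u).add (hY.mul_left v)).sub (hN.mul_left L)) fun p => by
      simp only [hw]; ring
  have key : ∀ p, A p ≠ 0 → u / 2 * tau p ≤ w p := by
    intro p hp
    apply w_lower hu huv h1 h2 p
    · intro h; apply hp; rw [← z0 p.1, ← h]
    · rintro ⟨hn, hj⟩
      apply hp
      obtain ⟨j, n⟩ := p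
      simp only at hn hj
      have e : A (j, n) = A (j, 1) := by
        rcases hn with h | h
        · rw [h]
        · rw [h]; exact zn j 1
      rw [e]
      rcases hj with h | h | h <;> subst h <;> assumption
  have key0 : ∀ p, A p ≠ 0 → 0 ≤ w p := fun p hp =>
    le_trans (mul_nonneg (by linarith) (tau_nonneg p)) (key p hp)
  have cmp2 : ∀ {k : ℤ × ℤ → ℝ} {V : ℝ}, HasSum (fun p => k p * A p) V → (∀ p, k p ≤ tau p) →
      u / 2 * V ≤ u * X + v * Y - L * N := fun hV hk =>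
    cmp hA hT hV fun p hp =>
      (mul_le_mul_of_nonneg_left (hk p) (by linarith)).trans (key p hp)
  have a02 : A (0, -2) = A (0, 2) := zn 0 2
  have a21 : A (2, -1) = A (2, 1) := zn 2 1
  have a22 : A (-2, -1) = A (2, 1) := (zn (-2) 1).trans z4
  refine ⟨?_, ?_, ?_, ?_, ?_, ?_, ?_, ?_⟩
  · refine hT.nonneg fun p => ?_
    by_cases hp : A p = 0
    · simp [hp]
    · exact mul_nonneg (key0 p hp) (hA p)
  · have := ((((((hN.sub (hasSum_pt A (0, 2))).sub (hasSum_pt A (0, -2))).sub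
      (hasSum_pt A (2, 1))).sub (hasSum_pt A (2, -1))).sub (hasSum_pt A (-2, 1))).sub
      (hasSum_pt A (-2, -1)))
    rw [a02, a21, a22, z4] at this
    have e : N - 2 * A (0, 2) - 4 * A (2, 1) =
      N - A (0, 2) - A (0, 2) - A (2, 1) - A (2, 1) - A (2, 1) - A (2, 1) := by ring
    rw [e]
    refine cmp2 (k := fun p => 1 - (if p = (0, 2) then 1 else 0) - (if p = (0, -2) then 1 else 0)
      - (if p = (2, 1) then 1 else 0) - (if p = (2, -1) then 1 else 0)
      - (if p = (-2, 1) then 1 else 0) - (if p = (-2, -1) then 1 else 0))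
      (hasSum_of_eq this fun p => by ring) fun p => ?_
    obtain ⟨j, n⟩ := p
    unfold tau
    by_cases hc : Crit (j, n)
    · rw [if_pos hc]
      rcases hc with ⟨h, h' | h'⟩ | ⟨h | h, h' | h'⟩ <;> simp only at h h' <;> subst h <;>
        subst h' <;> simp
    · rw [if_neg hc]
      have : (0 : ℝ) ≤ (j : ℝ) ^ 2 := by positivity
      split_ifs <;> simp only <;> linarith
  · have := (hX.sub ((hasSum_row hA 2 (hr 2)).mul_left 4)).sub
      ((hasSum_row hA (-2) (hr (-2))).mul_left 4)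
    refine cmp2 (k := fun p => (p.1 : ℝ) ^ 2 - 4 * (if p.1 = 2 then 1 else 0)
      - 4 * (if p.1 = -2 then 1 else 0)) (hasSum_of_eq this fun p => by ring) fun p => ?_
    obtain ⟨j, n⟩ := p
    unfold tau
    by_cases hc : Crit (j, n)
    · rw [if_pos hc]
      rcases hc with ⟨h, h' | h'⟩ | ⟨h | h, h' | h'⟩ <;> simp only at h h' <;> subst h <;>
        subst h' <;> norm_num
    · rw [if_neg hc]
      split_ifs <;> simp only <;> linarith
  · have := ((hasSum_row hA 0 (hr 0)).sub (hasSum_pt A (0, 2))).sub (hasSum_pt A (0, -2))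
    rw [a02] at this
    have e : r 0 - 2 * A (0, 2) = r 0 - A (0, 2) - A (0, 2) := by ring
    rw [e]
    refine cmp2 (k := fun p => (if p.1 = 0 then 1 else 0) - (if p = (0, 2) then 1 else 0)
      - (if p = (0, -2) then 1 else 0)) (hasSum_of_eq this fun p => by ring) fun p => ?_
    obtain ⟨j, n⟩ := p
    unfold tau
    by_cases hc : Crit (j, n)
    · rw [if_pos hc]
      rcases hc with ⟨h, h' | h'⟩ | ⟨h | h, h' | h'⟩ <;> simp only at h h' <;> subst h <;>
        subst h' <;> simp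
    · rw [if_neg hc]
      have : (0 : ℝ) ≤ (j : ℝ) ^ 2 := by positivity
      split_ifs <;> simp only <;> linarith
  · have := ((hasSum_row hA 2 (hr 2)).sub (hasSum_pt A (2, 1))).sub (hasSum_pt A (2, -1))
    rw [a21] at this
    have e : r 2 - 2 * A (2, 1) = r 2 - A (2, 1) - A (2, 1) := by ring
    rw [e]
    refine cmp2 (k := fun p => (if p.1 = 2 then 1 else 0) - (if p = (2, 1) then 1 else 0)
      - (if p = (2, -1) then 1 else 0)) (hasSum_of_eq this fun p => by ring) fun p => ?_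
    obtain ⟨j, n⟩ := p
    unfold tau
    by_cases hc : Crit (j, n)
    · rw [if_pos hc]
      rcases hc with ⟨h, h' | h'⟩ | ⟨h | h, h' | h'⟩ <;> simp only at h h' <;> subst h <;>
        subst h' <;> simp
    · rw [if_neg hc]
      have : (0 : ℝ) ≤ (j : ℝ) ^ 2 := by positivity
      split_ifs <;> simp only <;> linarith
  · have := ((hasSum_row hA (-2) (hr (-2))).sub (hasSum_pt A (-2, 1))).sub (hasSum_pt A (-2, -1))
    rw [a22, z4] at this
    have e : r (-2) - 2 * A (2, 1) = r (-2) - A (2, 1) - A (2, 1) := by ring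
    rw [e]
    refine cmp2 (k := fun p => (if p.1 = -2 then 1 else 0) - (if p = (-2, 1) then 1 else 0)
      - (if p = (-2, -1) then 1 else 0)) (hasSum_of_eq this fun p => by ring) fun p => ?_
    obtain ⟨j, n⟩ := p
    unfold tau
    by_cases hc : Crit (j, n)
    · rw [if_pos hc]
      rcases hc with ⟨h, h' | h'⟩ | ⟨h | h, h' | h'⟩ <;> simp only at h h' <;> subst h <;>
        subst h' <;> simp
    · rw [if_neg hc]
      have : (0 : ℝ) ≤ (j : ℝ) ^ 2 := by positivity
      split_ifs <;> simp only <;> linarith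
  · refine cmp hA hT (hasSum_pt A (0, 2)) fun p hp => ?_
    by_cases h : p = (0, 2)
    · subst h; simp only [hw]; norm_num; linarith
    · simpa [h] using key0 p hp
  · refine cmp hA hT (hasSum_pt A (2, 1)) fun p hp => ?_
    by_cases h : p = (2, 1)
    · subst h; simp only [hw]; norm_num; linarith
    · simpa [h] using key0 p hp

end Pool.Agent.P.MP_2f6447_an
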