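import Pool.Agent.P.MP_2f6447_an.Upper

/-! Trapezoids in a frame. -/

open MeasureTheory Set Real Filter Topology

namespace Pool.Agent.P.MP_2f6447_an

variable {o e n : E2} {k h a b : ℝ}

lemma mem_trap (F : Fr e n) (hh : 0 < h) (x y : ℝ) :
    Phi o e n (x, y) ∈ trapezoid o e (k • e + h • n) a b ↔
      y ∈ Ioo 0 h ∧ x ∈ Ioo (k * y / h) (k * y / h + a + (b - a) * y / h) := by
  constructor
  · rintro ⟨t, ht, s, hs, hp⟩
    have e1 : o + s • e + t • (k • e + h • n) = Phi o e n (s + t * k, t * h) := by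
      simp only [Phi, smul_add, add_smul, mul_smul]; abel
    rw [e1] at hp
    have := (F.homeo o).injective hp
    obtain ⟨rfl, rfl⟩ := Prod.ext_iff.1 this
    have e2 : k * (t * h) / h = t * k := by field_simp
    have e3 : (b - a) * (t * h) / h = t * (b - a) := by field_simp
    simp only [e2, e3]
    exact ⟨⟨mul_pos ht.1 hh, by nlinarith [ht.2]⟩, by linarith [hs.1], by linarith [hs.2]⟩
  · rintro ⟨hy, hx⟩
    refine ⟨y / h, ⟨div_pos hy.1 hh, (div_lt_one hh).2 hy.2⟩, x - k * y / h,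
      ⟨by linarith [hx.1], ?_⟩, ?_⟩
    · have : (1 - y / h) * a + y / h * b = a + (b - a) * y / h := by ring
      linarith [hx.2]
    · simp only [Phi, smul_add, smul_smul]
      have e1 : y / h * h = y := by field_simp
      have e2 : x • e = (x - k * y / h) • e + (y / h * k) • e := by
        rw [← add_smul]; congr 1; ring
      rw [e1, e2]; abel

lemma width_nonneg (hh : 0 < h) (ha : 0 ≤ a) (hb : 0 ≤ b) {y : ℝ} (hy : y ∈ Ioo 0 h) :
    k * y / h ≤ k * y / h + a + (b - a) * y / h := by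
  have e : a + (b - a) * y / h = (a * (h - y) + b * y) / h := by field_simp; ring
  have : 0 ≤ (a * (h - y) + b * y) / h := by
    have := hy.1; have : 0 < h - y := by linarith [hy.2]
    positivity
  linarith

lemma volume_trap (F : Fr e n) (hh : 0 < h) (ha : 0 ≤ a) (hb : 0 ≤ b) :
    (volume (trapezoid o e (k • e + h • n) a b)).toReal = (a + b) / 2 * h := by
  rw [← (F.measurePreserving o).measure_preimage_emb (F.homeo o).measurableEmbedding]
  have e1 : Phi o e n ⁻¹' trapezoid o e (k • e + h • n) a b = Prod.swap ⁻¹'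
      regionBetween (fun y => k * y / h) (fun y => k * y / h + a + (b - a) * y / h) (Ioo 0 h) := by
    ext ⟨x, y⟩
    exact mem_trap F hh x y
  have c1 : Continuous fun y => k * y / h := by fun_prop
  have c2 : Continuous fun y => k * y / h + a + (b - a) * y / h := by fun_prop
  rw [e1, Measure.volume_eq_prod, (Measure.measurePreserving_swap).measure_preimage
    (measurableSet_regionBetween c1.measurable c2.measurable measurableSet_Ioo).nullMeasurableSet,
    volume_regionBetween_eq_integral (c1.integrableOn_Icc.mono_set Ioo_subset_Icc_self)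
      (c2.integrableOn_Icc.mono_set Ioo_subset_Icc_self) measurableSet_Ioo
      (fun y hy => width_nonneg hh ha hb hy), ← integral_Ioc_eq_integral_Ioo,
    ← intervalIntegral.integral_of_le hh.le]
  have e2 : ∀ y, ((fun y => k * y / h + a + (b - a) * y / h) - fun y => k * y / h) y =
      a + (b - a) / h * y := fun y => by simp only [Pi.sub_apply]; ring
  simp_rw [e2]
  rw [intervalIntegral.integral_add intervalIntegrable_const
    (Continuous.intervalIntegrable (by fun_prop) _ _), intervalIntegral.integral_const_mul,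
    integral_id, intervalIntegral.integral_const]
  have e3 : (h - 0) • a + (b - a) / h * ((h ^ 2 - 0 ^ 2) / 2) = (a + b) / 2 * h := by
    simp only [smul_eq_mul]; field_simp; ring
  rw [e3, ENNReal.toReal_ofReal (by positivity)]

lemma fit_trap (hh : 0 < h) (ha : 0 ≤ a) (hb : 0 ≤ b) :
    Fit ((a + b) / 2) h (k / 2 + (a + b) / 2) (fun y => k * y / h)
      (fun y => k * y / h + a + (b - a) * y / h) where
  lr y hy := width_nonneg hh ha hb hy
  hr y _ := le_of_eq (by field_simp; ring)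
  hl y _ := le_of_eq (by field_simp; ring)

lemma RS_trap_nonempty (F : Fr e n) (hh : 0 < h) (hm : 0 < a + b) :
    (RS (trapezoid o e (k • e + h • n) a b)).Nonempty := by
  have ho : IsOpen {p : ℝ × ℝ | p.2 ∈ Ioo 0 h ∧
      p.1 ∈ Ioo (k * p.2 / h) (k * p.2 / h + a + (b - a) * p.2 / h)} := by
    simp only [mem_Ioo, ofPred_and]
    refine ((isOpen_lt (by fun_prop) (by fun_prop)).inter
      (isOpen_lt (by fun_prop) (by fun_prop))).inter
      ((isOpen_lt (by fun_prop) (by fun_prop)).inter (isOpen_lt (by fun_prop) (by fun_prop)))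
  have hp : (k / 2 + (a + b) / 4, h / 2) ∈ {p : ℝ × ℝ | p.2 ∈ Ioo 0 h ∧
      p.1 ∈ Ioo (k * p.2 / h) (k * p.2 / h + a + (b - a) * p.2 / h)} := by
    have e1 : k * (h / 2) / h = k / 2 := by field_simp
    have e2 : (b - a) * (h / 2) / h = (b - a) / 2 := by field_simp
    simp only [mem_ofPred_eq, e1, e2]
    exact ⟨⟨by linarith, by linarith⟩, by linarith, by linarith⟩
  obtain ⟨ρ, hρ, hB⟩ := Metric.isOpen_iff.1 ho _ hp
  refine ⟨_, two_squares (o := o) F (s := ρ / 2) (η := 1) (x0 := k / 2 + (a + b) / 4 - ρ / 2)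
    (x1 := k / 2 + (a + b) / 4) (y0 := h / 2) (by linarith) one_pos (by linarith) ?_ ?_⟩
  all_goals
    intro x hx y hy
    rw [mem_trap F hh]
    apply hB (a := (x, y))
    rw [Metric.mem_ball, Prod.dist_eq, max_lt_iff, Real.dist_eq, Real.dist_eq, abs_lt, abs_lt]
    exact ⟨⟨by linarith [hx.1], by linarith [hx.2]⟩, by linarith [hy.1], by linarith [hy.2]⟩

theorem trap_lower (F : Fr e n) (hh : 0 < h) (ha : 0 ≤ a) (hb : 0 ≤ b) (hm : h ≤ (a + b) / 2) :
    ∀ ρ ∈ RS (trapezoid o e (k • e + h • n) a b), 4 * π ^ 2 / ((a + b) / 2 * h) ≤ ρ :=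
  fun _ hρ => le_of_mem_RS F (fun x y hxy => (mem_trap F hh x y).1 hxy)
    (ψ := fun p => Real.sin (π * (p.1 - (k / 2 + (a + b) / 2)) / ((a + b) / 2)) *
      Real.sin (π * p.2 / h)) (by fun_prop)
    (fun _ _ _ H Hx Hy hx hy orth => raw_energy hh hm (fit_trap hh ha hb) H Hx Hy hx hy orth) hρ

lemma slant_pos (hh : 0 < h) {κ : ℝ} (hκ : κ ≠ 0) {θ : ℝ → ℝ} (hθ : Continuous θ)
    (e : ∀ y, Real.sin (θ y) = Real.sin (κ * (y - h / 2))) :
    0 < ∫ y in (0 : ℝ)..h, Real.sin (π * (1 : ℤ) * y / h) ^ 2 * Real.sin (θ y) ^ 2 := by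
  apply intervalIntegral.integral_pos hh (Continuous.continuousOn (by fun_prop))
    (fun y _ => by positivity)
  have hκ' : 0 < |κ| := abs_pos.2 hκ
  set δ := min (h / 4) (1 / |κ|) with hδ
  have d0 : 0 < δ := by positivity
  have d1 : δ ≤ h / 4 := min_le_left _ _
  have d2 : δ ≤ 1 / |κ| := min_le_right _ _
  have hp := Real.pi_gt_three
  refine ⟨h / 2 + δ, ⟨by linarith, by linarith⟩, mul_pos (pow_pos ?_ 2) ?_⟩
  · apply Real.sin_pos_of_pos_of_lt_pi
    · push_cast; positivity
    · push_cast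
      rw [div_lt_iff₀ hh]; nlinarith
  · rw [e, add_sub_cancel_left]
    have a1 : |κ * δ| ≤ 1 := by
      rw [abs_mul, abs_of_pos d0]
      rw [le_div_iff₀ hκ'] at d2; linarith
    have a2 := abs_le.1 a1
    have : Real.sin (κ * δ) ≠ 0 := by
      rw [Ne, Real.sin_eq_zero_iff_of_lt_of_lt (by linarith) (by linarith)]
      exact mul_ne_zero hκ d0.ne'
    positivity

theorem trap_strict (F : Fr e n) (hh : 0 < h) (ha : 0 ≤ a) (hb : 0 ≤ b) (hm : h ≤ (a + b) / 2)
    (hne : ¬((a + b) / 2 = 2 * h ∧ k = 0 ∧ a = b)) :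
    4 * π ^ 2 / ((a + b) / 2 * h) < lam2 (trapezoid o e (k • e + h • n) a b) := by
  have hm0 : 0 < (a + b) / 2 := by linarith
  have hp := Real.pi_pos
  obtain ⟨x0, hx0, hlr, hI⟩ : ∃ x0 : ℝ → ℝ, Continuous x0 ∧
      (x0 = (fun y => k * y / h) ∨ x0 = fun y => k * y / h + a + (b - a) * y / h) ∧
      ((a + b) / 2 = 2 * h → 0 < ∫ y in (0 : ℝ)..h, Real.sin (π * (1 : ℤ) * y / h) ^ 2 *
        Real.sin (π * (2 : ℤ) * (x0 y - (k / 2 + (a + b) / 2)) / ((a + b) / 2)) ^ 2) := by
    by_cases hk : k = 0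
    · refine ⟨_, by fun_prop, Or.inr rfl, fun h2 => ?_⟩
      have hab : b - a ≠ 0 := fun h' => hne ⟨h2, hk, by linarith⟩
      apply slant_pos hh (κ := 2 * π * (b - a) / (h * ((a + b) / 2))) (by positivity)
        (by fun_prop)
      intro y
      congr 1
      subst hk
      push_cast
      have : a + b ≠ 0 := by linarith
      field_simp; ring
    · refine ⟨_, by fun_prop, Or.inl rfl, fun _ => ?_⟩
      apply slant_pos hh (κ := 2 * π * k / (h * ((a + b) / 2))) (by positivity) (by fun_prop)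
      intro y
      rw [← Real.sin_add_two_pi]
      congr 1
      push_cast
      have : a + b ≠ 0 := by linarith
      field_simp; ring
  obtain ⟨L, hL, hg⟩ := raw_gap hh hm (fit_trap hh ha hb) hx0 hlr hI
  refine hL.trans_le ?_
  rw [lam2_eq]
  exact le_csInf (RS_trap_nonempty F hh (by linarith)) fun ρ hρ =>
    le_of_mem_RS F (fun x y hxy => (mem_trap F hh x y).1 hxy)
      (ψ := fun p => Real.sin (π * (p.1 - (k / 2 + (a + b) / 2)) / ((a + b) / 2)) *
        Real.sin (π * p.2 / h)) (by fun_prop) hg hρ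

theorem rect_upper (F : Fr e n) (hh : 0 < h) :
    lam2 (trapezoid o e ((0 : ℝ) • e + h • n) (2 * h) (2 * h)) ≤ 2 * π ^ 2 / h ^ 2 := by
  have bdd : BddBelow (RS (trapezoid o e ((0 : ℝ) • e + h • n) (2 * h) (2 * h))) :=
    ⟨_, trap_lower F hh (by linarith) (by linarith) (by linarith)⟩
  have key : ∀ η : ℝ, 0 < η → lam2 (trapezoid o e ((0 : ℝ) • e + h • n) (2 * h) (2 * h)) ≤
      2 * π ^ 2 / h ^ 2 * (1 + η) ^ 3 := by
    intro η hη
    have hs : 0 < h / (1 + η) := by positivity
    have hs' : h / (1 + η) < h := div_lt_self hh (by linarith)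
    have e1 : 2 * π ^ 2 / h ^ 2 * (1 + η) ^ 3 = 2 * ((π / (h / (1 + η))) ^ 2 * (1 + η)) := by
      field_simp
    rw [lam2_eq, e1]
    apply csInf_le bdd
    apply two_squares (o := o) F (x0 := (h - h / (1 + η)) / 2) (x1 := h + (h - h / (1 + η)) / 2)
      (y0 := (h - h / (1 + η)) / 2) hs hη (by linarith)
    all_goals
      intro x hx y hy
      rw [mem_trap F hh]
      simp only [zero_mul, zero_div, sub_self, add_zero, zero_add]
      exact ⟨⟨by linarith [hy.1], by linarith [hy.2]⟩, by linarith [hx.1], by linarith [hx.2]⟩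
  have lim : Tendsto (fun η : ℝ => 2 * π ^ 2 / h ^ 2 * (1 + η) ^ 3) (𝓝[>] 0)
      (𝓝 (2 * π ^ 2 / h ^ 2 * (1 + 0) ^ 3)) :=
    (Continuous.tendsto (by fun_prop) 0).mono_left nhdsWithin_le_nhds
  simp only [add_zero, one_pow, mul_one] at lim
  exact ge_of_tendsto lim (eventually_mem_nhdsWithin.mono fun η hη => key η hη)

end Pool.Agent.P.MP_2f6447_an
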