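import Pool.Agent.P.MP_2f6447_an.Frame
import Pool.Agent.P.MP_2f6447_an.Bump

/-! Test functions: two disjoint squares. -/

open MeasureTheory Set Real Filter Topology

namespace Pool.Agent.P.MP_2f6447_an

lemma integral_two {φ : ℝ → ℝ} {s x0 x1 : ℝ} (hφ : Continuous φ) (z : ∀ t, t ∉ Ioo 0 s → φ t = 0)
    (h01 : x0 + s ≤ x1) (a b : ℝ) :
    ∫ x, (a * φ (x - x0) + b * φ (x - x1)) ^ 2 = (a ^ 2 + b ^ 2) * ∫ x, φ x ^ 2 := by
  have i0 : Integrable fun x => φ x ^ 2 := by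
    have := integrable_normsq (μ := volume) hφ (compactSupport_of_Ioo z)
    simpa using this
  have : ∀ x, (a * φ (x - x0) + b * φ (x - x1)) ^ 2 =
      a ^ 2 * φ (x - x0) ^ 2 + b ^ 2 * φ (x - x1) ^ 2 := by
    intro x
    by_cases hx : x ≤ x1
    · rw [z (x - x1) (fun h => by linarith [h.1])]; ring
    · rw [z (x - x0) (fun h => by linarith [h.2, not_le.1 hx])]; ring
  simp_rw [this]
  rw [integral_add ((i0.comp_sub_right x0).const_mul _) ((i0.comp_sub_right x1).const_mul _),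
    integral_const_mul, integral_const_mul, integral_sub_right_eq_self (fun x => φ x ^ 2),
    integral_sub_right_eq_self (fun x => φ x ^ 2)]
  ring

lemma sq_int {φ : ℝ → ℝ} (hφ : Continuous φ) (hc : HasCompactSupport φ) :
    Integrable fun x => φ x ^ 2 := by
  have := integrable_normsq (μ := volume) hφ hc
  simpa using this

theorem two_squares {o e n : E2} (F : Fr e n) {Ω : Set E2} {s η x0 x1 y0 : ℝ} (hs : 0 < s)
    (hη : 0 < η) (h01 : x0 + s ≤ x1)
    (h0 : ∀ x ∈ Icc x0 (x0 + s), ∀ y ∈ Icc y0 (y0 + s), Phi o e n (x, y) ∈ Ω)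
    (h1 : ∀ x ∈ Icc x1 (x1 + s), ∀ y ∈ Icc y0 (y0 + s), Phi o e n (x, y) ∈ Ω) :
    2 * ((π / s) ^ 2 * (1 + η)) ∈ RS Ω := by
  obtain ⟨ψ, ψ', cψ, hd, cψ', z0, z1, hne, ray⟩ := exists_bump hs hη
  have cψ0 := cψ.continuous
  set G : ℝ → E2 → ℝ := fun z q => ψ (inner ℝ e (q - o) - z) * ψ (inner ℝ n (q - o) - y0) with hG
  have cG : ∀ z, ContDiff ℝ 1 (G z) := by
    intro z
    have c1 : ContDiff ℝ 1 fun q : E2 => inner ℝ e (q - o) - z :=
      (contDiff_const.inner ℝ (contDiff_id.sub contDiff_const)).sub contDiff_const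
    have c2 : ContDiff ℝ 1 fun q : E2 => inner ℝ n (q - o) - y0 :=
      (contDiff_const.inner ℝ (contDiff_id.sub contDiff_const)).sub contDiff_const
    exact (cψ.comp c1).mul (cψ.comp c2)
  have GP : ∀ z p, G z (Phi o e n p) = ψ (p.1 - z) * ψ (p.2 - y0) := fun z p => by
    simp only [hG, F.inner_e, F.inner_n]
  have kK : ∀ z, IsCompact (Phi o e n '' (Icc z (z + s) ×ˢ Icc y0 (y0 + s))) := fun z =>
    (isCompact_Icc.prod isCompact_Icc).image (F.homeo o).continuous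
  have sG : ∀ z, tsupport (G z) ⊆ Phi o e n '' (Icc z (z + s) ×ˢ Icc y0 (y0 + s)) := by
    intro z
    apply closure_minimal _ (kK z).isClosed
    intro q hq
    have hq' : ψ (inner ℝ e (q - o) - z) * ψ (inner ℝ n (q - o) - y0) ≠ 0 := hq
    have a1 : inner ℝ e (q - o) - z ∈ Ioo 0 s := by
      by_contra h; exact hq' (by rw [z0 _ h, zero_mul])
    have a2 : inner ℝ n (q - o) - y0 ∈ Ioo 0 s := by
      by_contra h; exact hq' (by rw [z0 _ h, mul_zero])
    refine ⟨_, ?_, F.phi_coord o q⟩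
    exact ⟨⟨by linarith [a1.1], by linarith [a1.2]⟩, ⟨by linarith [a2.1], by linarith [a2.2]⟩⟩
  have kG : ∀ z, HasCompactSupport (G z) := fun z =>
    (kK z).of_isClosed_subset (isClosed_tsupport _) (sG z)
  refine ⟨G x0, G x1, cG x0, cG x1, kG x0, kG x1, (sG x0).trans ?_, (sG x1).trans ?_, ?_, ?_⟩
  · rintro _ ⟨⟨x, y⟩, ⟨hx, hy⟩, rfl⟩; exact h0 x hx y hy
  · rintro _ ⟨⟨x, y⟩, ⟨hx, hy⟩, rfl⟩; exact h1 x hx y hy
  · rw [LinearIndependent.pair_iff]
    intro a b hab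
    have e0 := congrFun hab (Phi o e n (x0 + s / 2, y0 + s / 2))
    have e1 := congrFun hab (Phi o e n (x1 + s / 2, y0 + s / 2))
    simp only [Pi.add_apply, Pi.smul_apply, smul_eq_mul, Pi.zero_apply, GP, add_sub_cancel_left]
      at e0 e1
    rw [z0 (x0 + s / 2 - x1) (fun h => by linarith [h.1])] at e0
    rw [z0 (x1 + s / 2 - x0) (fun h => by linarith [h.2])] at e1
    constructor
    · simpa [hne] using e0
    · simpa [hne] using e1
  intro a b
  set u : E2 → ℝ := fun y => a * G x0 y + b * G x1 y with hu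
  have cu : ContDiff ℝ 1 u := (contDiff_const.mul (cG x0)).add (contDiff_const.mul (cG x1))
  have du : Differentiable ℝ u := cu.differentiable one_ne_zero
  set Ψ : ℝ → ℝ := fun x => a * ψ (x - x0) + b * ψ (x - x1) with hΨ
  set Ψ' : ℝ → ℝ := fun x => a * ψ' (x - x0) + b * ψ' (x - x1) with hΨ'
  have uP : ∀ p, u (Phi o e n p) = Ψ p.1 * ψ (p.2 - y0) := fun p => by
    simp only [hu, hΨ, GP]; ring
  have hds : ∀ z t, HasDerivAt (fun t => ψ (t - z)) (ψ' (t - z)) t := fun z t =>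
    (hd (t - z)).comp_sub_const t z
  have ux : ∀ p, fderiv ℝ u (Phi o e n p) e = Ψ' p.1 * ψ (p.2 - y0) := by
    rintro ⟨x, y⟩
    have a1 := hasDerivAt_phi_x o e n du x y
    simp only [uP] at a1
    exact a1.unique ((((hds x0 x).const_mul a).add ((hds x1 x).const_mul b)).mul_const _)
  have uy : ∀ p, fderiv ℝ u (Phi o e n p) n = Ψ p.1 * ψ' (p.2 - y0) := by
    rintro ⟨x, y⟩
    have a1 := hasDerivAt_phi_y o e n du x y
    simp only [uP] at a1
    exact a1.unique ((hds y0 y).const_mul _)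
  have k0 := compactSupport_of_Ioo z0
  have k1 := compactSupport_of_Ioo z1
  have ks : ∀ {φ : ℝ → ℝ}, HasCompactSupport φ → ∀ z, HasCompactSupport fun t => φ (t - z) :=
    fun hφ z => hφ.comp_homeomorph (Homeomorph.subRight z)
  have iΨ : Integrable fun x => Ψ x ^ 2 :=
    sq_int (by simp only [hΨ]; fun_prop) ((ks k0 x0).mul_left.add (ks k0 x1).mul_left)
  have iΨ' : Integrable fun x => Ψ' x ^ 2 :=
    sq_int (by simp only [hΨ']; fun_prop) ((ks k1 x0).mul_left.add (ks k1 x1).mul_left)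
  have iχ : Integrable fun y => ψ (y - y0) ^ 2 := (sq_int cψ0 k0).comp_sub_right y0
  have iχ' : Integrable fun y => ψ' (y - y0) ^ 2 := (sq_int cψ' k1).comp_sub_right y0
  have eL : ∫ q, ‖fderiv ℝ u q‖ ^ 2 = (∫ x, Ψ' x ^ 2) * (∫ y, ψ (y - y0) ^ 2) +
      (∫ x, Ψ x ^ 2) * ∫ y, ψ' (y - y0) ^ 2 := by
    rw [← F.integral_phi o (fun q => ‖fderiv ℝ u q‖ ^ 2)]
    simp_rw [F.norm_dual, ux, uy, mul_pow]
    rw [Measure.volume_eq_prod, integral_add (iΨ'.mul_prod iχ) (iΨ.mul_prod iχ'),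
      integral_prod_mul (fun x => Ψ' x ^ 2) (fun y => ψ (y - y0) ^ 2),
      integral_prod_mul (fun x => Ψ x ^ 2) (fun y => ψ' (y - y0) ^ 2)]
  have eR : ∫ q, u q ^ 2 = (∫ x, Ψ x ^ 2) * ∫ y, ψ (y - y0) ^ 2 := by
    rw [← F.integral_phi o (fun q => u q ^ 2)]
    simp_rw [uP, mul_pow]
    rw [Measure.volume_eq_prod, integral_prod_mul (fun x => Ψ x ^ 2) (fun y => ψ (y - y0) ^ 2)]
  change ∫ q, ‖fderiv ℝ u q‖ ^ 2 ≤ _ * ∫ q, u q ^ 2
  rw [eL, eR, integral_sub_right_eq_self (fun x => ψ x ^ 2),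
    integral_sub_right_eq_self (fun x => ψ' x ^ 2)]
  simp only [hΨ, hΨ']
  rw [integral_two cψ0 z0 h01, integral_two cψ' z1 h01]
  have p0 : 0 ≤ ∫ x, ψ x ^ 2 := integral_nonneg fun x => sq_nonneg _
  have p1 : 0 ≤ (a ^ 2 + b ^ 2) * ∫ x, ψ x ^ 2 := by positivity
  have := mul_le_mul_of_nonneg_left ray p1
  nlinarith

end Pool.Agent.P.MP_2f6447_an
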